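import Pool.Agent.Lib.MP_eb34a4_co.Cb.Defs
import Pool.Agent.Lib.MP_eb34a4_co.MG.Key

/-! Flattening an arc at low frequencies. -/

set_option autoImplicit false

open MeasureTheory Set
open scoped RealInnerProductSpace

namespace Pool.Agent.Lib.MP_eb34a4_co.Cb

variable {E : Type} [NormedAddCommGroup E] [InnerProductSpace ℝ E] [FiniteDimensional ℝ E]
  [MeasurableSpace E] [BorelSpace E] {d : ℕ}

theorem t9_mean {g : ℝ → ℂ} {ρ B : ℝ} (hρ : 0 < ρ) (h : ∀ t ∈ Icc (-ρ) ρ, ‖g t‖ ≤ B) :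
    ‖(((2 * ρ)⁻¹ : ℝ) : ℂ) * ∫ t in (-ρ)..ρ, g t‖ ≤ B := by
  have h1 := intervalIntegral.norm_integral_le_of_norm_le_const (a := -ρ) (b := ρ) (f := g)
    (C := B) fun t ht => h t (by
      rw [uIoc_of_le (by linarith)] at ht
      exact Ioc_subset_Icc_self ht)
  rw [abs_of_pos (by linarith)] at h1
  rw [norm_mul, Complex.norm_real, Real.norm_of_nonneg (by positivity),
    inv_mul_le_iff₀ (by positivity)]
  linarith

omit [FiniteDimensional ℝ E] [MeasurableSpace E] [BorelSpace E] in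
theorem sa_norm (u : E) {ρ : ℝ} (hρ : 0 < ρ) (ξ : E) : ‖sa u ρ ξ‖ ≤ 1 := by
  exact t9_mean hρ fun t _ => (ch_norm _ _).le

omit [FiniteDimensional ℝ E] [MeasurableSpace E] [BorelSpace E] in
theorem sa_cont (u : E) (ρ : ℝ) : Continuous (sa u ρ) := by
  refine continuous_const.mul ?_
  refine intervalIntegral.continuous_parametric_intervalIntegral_of_continuous'
    (f := fun (ξ : E) (t : ℝ) => ch ξ (t • u)) ?_ _ _
  exact ch_cont.comp (continuous_fst.prodMk (continuous_snd.smul continuous_const))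

omit [FiniteDimensional ℝ E] [MeasurableSpace E] [BorelSpace E] in
theorem t9_one (ξ u : E) (t : ℝ) : ‖ch ξ (t • u) - 1‖ ≤ |t| * |2 * Real.pi * ⟪ξ, u⟫| := by
  refine (MG.key_sub_one_abs _).trans_eq ?_
  rw [inner_smul_right, ← abs_mul]
  congr 1
  ring

omit [FiniteDimensional ℝ E] [MeasurableSpace E] [BorelSpace E] in
/-- `MG.key_sub_one_abs`. -/
theorem sa_one (u : E) {ρ : ℝ} (hρ : 0 < ρ) (ξ : E) :
    ‖sa u ρ ξ - 1‖ ≤ ρ * |2 * Real.pi * ⟪ξ, u⟫| := by
  have hc : Continuous fun t : ℝ => ch ξ (t • u) :=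
    ch_cont.comp (continuous_const.prodMk (continuous_id.smul continuous_const))
  have e : sa u ρ ξ - 1 = ((2 * ρ)⁻¹ : ℝ) * ∫ t in (-ρ)..ρ, (ch ξ (t • u) - 1) := by
    have h0 : (ρ : ℂ) ≠ 0 := Complex.ofReal_ne_zero.2 hρ.ne'
    rw [intervalIntegral.integral_sub (hc.intervalIntegrable _ _) intervalIntegrable_const,
      intervalIntegral.integral_const, mul_sub, sa]
    congr 1
    rw [Complex.real_smul]
    push_cast
    field_simp
    ring
  rw [e]
  refine t9_mean hρ fun t ht => (t9_one ξ u t).trans ?_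
  exact mul_le_mul_of_nonneg_right (abs_le.2 ht) (abs_nonneg _)

omit [FiniteDimensional ℝ E] [MeasurableSpace E] [BorelSpace E] in
/-- Low frequencies: `MG.key_sub_one_abs` under the integral.  High frequencies: `MG.vdc_arc` for
`H - c₀` with `r = τ * ρ`.  Between: the norm of the mean is at most one. -/
theorem arc_mult (f u : E) (H : ℝ → ℝ) {ρ lam μ c₀ θ τ h₀ a₁ a₂ : ℝ} (hc : Continuous H)
    (hH : ConcaveOn ℝ (Icc (-(2 * ρ)) (2 * ρ)) H) (hρ : 0 < ρ) (hlam : 0 < lam) (hτ : 0 < τ)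
    (hτ1 : τ ≤ 1) (hθ : 4 * θ ≤ lam * (τ * ρ) ^ 2)
    (hnear : ∀ t ∈ Icc (-(2 * ρ)) (2 * ρ), |H t - c₀ + μ * t + lam * t ^ 2| ≤ θ)
    (h1 : ∀ t ∈ Icc (-ρ) ρ, a₁ * |H t - h₀| ≤ τ) (h2 : 8 ≤ a₂ * (τ ^ 2 * lam * ρ ^ 2)) (ξ : E) :
    ‖(if |2 * Real.pi * ⟪ξ, u⟫| < a₁ then sa f ρ ξ * ch ξ (h₀ • u) else 0) -
        ((2 * ρ)⁻¹ : ℝ) * ∫ t in (-ρ)..ρ, ch ξ (t • f + H t • u)‖ ≤
      2 * τ + if |2 * Real.pi * ⟪ξ, u⟫| ∈ Icc a₁ a₂ then 1 else 0 := by
  have hc0 : Continuous fun t : ℝ => ch ξ (t • f) :=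
    ch_cont.comp (continuous_const.prodMk (continuous_id.smul continuous_const))
  have hc1 : Continuous fun t : ℝ => ch ξ (t • f) * ch ξ (h₀ • u) := hc0.mul continuous_const
  have hc2 : Continuous fun t : ℝ => ch ξ (t • f + H t • u) :=
    ch_cont.comp (continuous_const.prodMk
      ((continuous_id.smul continuous_const).add (hc.smul continuous_const)))
  have hif : (0 : ℝ) ≤ if |2 * Real.pi * ⟪ξ, u⟫| ∈ Icc a₁ a₂ then 1 else 0 := by
    split_ifs <;> norm_num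
  by_cases hlo : |2 * Real.pi * ⟪ξ, u⟫| < a₁
  · rw [if_pos hlo, sa, mul_assoc, ← mul_sub, ← intervalIntegral.integral_mul_const,
      ← intervalIntegral.integral_sub (hc1.intervalIntegrable _ _) (hc2.intervalIntegrable _ _)]
    refine (t9_mean (B := τ) hρ fun t ht => ?_).trans (by linarith)
    have e : ch ξ (t • f) * ch ξ (h₀ • u) - ch ξ (t • f + H t • u) =
        ch ξ (t • f + H t • u) * (ch ξ ((h₀ - H t) • u) - 1) := by
      rw [mul_sub, mul_one, ← ch_add, ← ch_add]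
      congr 2
      module
    rw [e, norm_mul, ch_norm, one_mul]
    refine (t9_one ξ u _).trans (le_trans ?_ (h1 t ht))
    rw [abs_sub_comm, mul_comm]
    exact mul_le_mul_of_nonneg_right hlo.le (abs_nonneg _)
  rw [if_neg hlo, zero_sub, norm_neg]
  by_cases hhi : |2 * Real.pi * ⟪ξ, u⟫| ≤ a₂
  · rw [if_pos ⟨not_lt.1 hlo, hhi⟩]
    exact (t9_mean (B := 1) hρ fun t _ => (ch_norm _ _).le).trans (by linarith)
  refine le_trans ?_ (le_add_of_nonneg_right hif)
  have hp : 0 < τ ^ 2 * lam * ρ ^ 2 := by positivity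
  have h3 : 8 ≤ |2 * Real.pi * ⟪ξ, u⟫| * (τ ^ 2 * lam * ρ ^ 2) :=
    h2.trans (mul_le_mul_of_nonneg_right (not_le.1 hhi).le hp.le)
  have hb : 0 < |2 * Real.pi * ⟪ξ, u⟫| := by
    by_contra hn
    have := mul_le_mul_of_nonneg_right (not_lt.1 hn) hp.le
    linarith
  have h4 := MG.vdc_arc (fun t => H t - c₀) ρ (τ * ρ) lam μ θ (hc.sub continuous_const)
    (hH.add_const (-c₀) |>.congr fun t _ => by simp [sub_eq_add_neg]) (by positivity)
    (mul_le_of_le_one_left hρ.le hτ1) hlam hθ hnear (2 * Real.pi * ⟪ξ, f⟫)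
    (2 * Real.pi * ⟪ξ, u⟫) (abs_pos.1 hb)
  have e : ∀ t : ℝ, ch ξ (t • f + H t • u) =
      Complex.exp (((2 * Real.pi * ⟪ξ, f⟫ * t + 2 * Real.pi * ⟪ξ, u⟫ * (H t - c₀) : ℝ) : ℂ) *
        Complex.I) * ch ξ (c₀ • u) := by
    intro t
    unfold ch
    rw [← Complex.exp_add, inner_add_right, inner_smul_right, inner_smul_right, inner_smul_right]
    congr 1
    push_cast
    ring
  simp only [e]
  rw [intervalIntegral.integral_mul_const, norm_mul, norm_mul, ch_norm, mul_one,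
    Complex.norm_real, Real.norm_of_nonneg (by positivity)]
  refine (mul_le_mul_of_nonneg_left h4 (by positivity)).trans ?_
  generalize |2 * Real.pi * ⟪ξ, u⟫| = β at h3 hb
  have h5 : 16 / (β * lam * (τ * ρ)) ≤ 2 * (τ * ρ) := by
    rw [div_le_iff₀ (by positivity)]
    nlinarith
  rw [inv_mul_le_iff₀ (by positivity)]
  nlinarith

/-- Interchange the integrals as in `MG.key_line`: the integral of `W * ch ξ b` against the mean
over the arc is zero.  Then `arc_mult`. -/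
theorem arc (W : E → ℝ) (hW : Integrable W) (hW0 : ∀ ξ, 0 ≤ W ξ) (b f u : E) (H : ℝ → ℝ)
    {ρ lam μ c₀ θ τ h₀ a₁ a₂ : ℝ} (hc : Continuous H)
    (hH : ConcaveOn ℝ (Icc (-(2 * ρ)) (2 * ρ)) H) (hρ : 0 < ρ) (hlam : 0 < lam) (hτ : 0 < τ)
    (hτ1 : τ ≤ 1) (hθ : 4 * θ ≤ lam * (τ * ρ) ^ 2)
    (hnear : ∀ t ∈ Icc (-(2 * ρ)) (2 * ρ), |H t - c₀ + μ * t + lam * t ^ 2| ≤ θ)
    (h1 : ∀ t ∈ Icc (-ρ) ρ, a₁ * |H t - h₀| ≤ τ) (h2 : 8 ≤ a₂ * (τ ^ 2 * lam * ρ ^ 2))
    (hz : ∀ t ∈ Icc (-ρ) ρ, ∫ ξ, (W ξ : ℂ) * ch ξ (b + t • f + H t • u) = 0) :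
    ‖∫ ξ, (W ξ : ℂ) * (if |2 * Real.pi * ⟪ξ, u⟫| < a₁ then sa f ρ ξ else 0) *
        ch ξ (b + h₀ • u)‖ ≤
      2 * τ * (∫ ξ, W ξ) + ∫ ξ in {ξ | |2 * Real.pi * ⟪ξ, u⟫| ∈ Icc a₁ a₂}, W ξ := by
  have hρ' : -ρ ≤ ρ := by linarith
  have cb : ∀ v : E, Continuous fun ξ : E => ch ξ v := fun v =>
    ch_cont.comp (continuous_id.prodMk continuous_const)
  have cu : Continuous fun ξ : E => |2 * Real.pi * ⟪ξ, u⟫| := by fun_prop
  let c : E → ℂ := fun ξ => (W ξ : ℂ) * ch ξ b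
  let g : ℝ → E → ℂ := fun t ξ => ch ξ (t • f + H t • u)
  let L : E → ℂ := fun ξ =>
    if |2 * Real.pi * ⟪ξ, u⟫| < a₁ then sa f ρ ξ * ch ξ (h₀ • u) else 0
  have hcn : ∀ ξ, ‖c ξ‖ = W ξ := fun ξ => by
    simp only [c]
    rw [norm_mul, ch_norm, mul_one, Complex.norm_real, Real.norm_of_nonneg (hW0 ξ)]
  have hci : Integrable c := hW.mono' (hW.ofReal.aestronglyMeasurable.mul
    (cb b).aestronglyMeasurable) (Filter.Eventually.of_forall fun ξ => (hcn ξ).le)
  have hgc : Continuous fun p : ℝ × E => g p.1 p.2 :=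
    ch_cont.comp (continuous_snd.prodMk (by fun_prop))
  have hint : Integrable (Function.uncurry fun t ξ => c ξ * g t ξ)
      ((volume.restrict (uIoc (-ρ) ρ)).prod (volume : Measure E)) := by
    have : IsFiniteMeasure (volume.restrict (uIoc (-ρ) ρ)) := by
      rw [uIoc_of_le hρ']
      infer_instance
    have h1 : Integrable (fun p : ℝ × E => c p.2)
        ((volume.restrict (uIoc (-ρ) ρ)).prod (volume : Measure E)) := hci.comp_snd _
    refine Integrable.mono' h1.norm (h1.aestronglyMeasurable.mul hgc.aestronglyMeasurable)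
      (Filter.Eventually.of_forall fun p => ?_)
    change ‖c p.2 * g p.1 p.2‖ ≤ ‖c p.2‖
    rw [norm_mul, ch_norm, mul_one]
  have i1 : Integrable fun ξ => ∫ t in (-ρ)..ρ, c ξ * g t ξ := by
    have h := hint.integral_prod_right
    rw [uIoc_of_le hρ'] at h
    simpa only [intervalIntegral.integral_of_le hρ', Function.uncurry_apply_pair] using h
  have z1 : ∫ ξ, ∫ t in (-ρ)..ρ, c ξ * g t ξ = 0 := by
    rw [← intervalIntegral_integral_swap hint, intervalIntegral.integral_congr (g := fun _ => 0),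
      intervalIntegral.integral_zero]
    intro t ht
    rw [uIcc_of_le hρ'] at ht
    simpa only [c, g, add_assoc b, ch_add _ b, mul_assoc] using hz t ht
  have hLm : Measurable L := Measurable.ite (measurableSet_lt cu.measurable measurable_const)
    ((sa_cont f ρ).mul (cb _)).measurable measurable_const
  have i2 : Integrable fun ξ => c ξ * L ξ := by
    refine hci.mul_bdd (c := 1) hLm.aestronglyMeasurable (Filter.Eventually.of_forall fun ξ => ?_)
    simp only [L]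
    split_ifs
    · rw [norm_mul, ch_norm, mul_one]
      exact sa_norm f hρ ξ
    · simp
  have hS : MeasurableSet {ξ : E | |2 * Real.pi * ⟪ξ, u⟫| ∈ Icc a₁ a₂} :=
    cu.measurable measurableSet_Icc
  have e : ∫ ξ, (W ξ : ℂ) * (if |2 * Real.pi * ⟪ξ, u⟫| < a₁ then sa f ρ ξ else 0) *
      ch ξ (b + h₀ • u) =
      ∫ ξ, (c ξ * L ξ - ((2 * ρ)⁻¹ : ℝ) * ∫ t in (-ρ)..ρ, c ξ * g t ξ) := by
    rw [integral_sub i2 (i1.const_mul _), integral_const_mul, z1, mul_zero, sub_zero]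
    refine integral_congr_ae (Filter.Eventually.of_forall fun ξ => ?_)
    simp only [c, L, ch_add]
    split_ifs <;> ring
  rw [e, ← integral_const_mul, ← integral_indicator hS,
    ← integral_add (hW.const_mul _) (hW.indicator hS)]
  refine norm_integral_le_of_norm_le ((hW.const_mul _).add (hW.indicator hS))
    (Filter.Eventually.of_forall fun ξ => ?_)
  have h := mul_le_mul_of_nonneg_left (arc_mult f u H hc hH hρ hlam hτ hτ1 hθ hnear h1 h2 ξ) (hW0 ξ)
  rw [intervalIntegral.integral_const_mul, mul_left_comm, ← mul_sub, norm_mul, hcn]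
  refine h.trans_eq ?_
  simp only [indicator, mem_ofPred_eq]
  split_ifs <;> ring

end Pool.Agent.Lib.MP_eb34a4_co.Cb
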