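import Pool.Agent.Lib.MP_eb34a4_co.Cb.Defs

/-! Correlations of averaged sets. -/

set_option autoImplicit false

open MeasureTheory Set
open scoped RealInnerProductSpace

namespace Pool.Agent.Lib.MP_eb34a4_co.Cb

variable {E : Type} [NormedAddCommGroup E] [InnerProductSpace ℝ E] [FiniteDimensional ℝ E]
  [MeasurableSpace E] [BorelSpace E] {d : ℕ}

/-- Fubini; `ch ξ (q' - q) = ch ξ q' * conj (ch ξ q)` (`ch_add`, `ch_neg`, `integral_conj`,
`Complex.mul_conj`). -/
theorem av_eq (U : E → ℂ) (hU : Integrable U) (μ : Measure E) [IsProbabilityMeasure μ] :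
    ∫ ξ, U ξ * ((‖∫ q, ch ξ q ∂μ‖ ^ 2 : ℝ) : ℂ) =
      ∫ p : E × E, (∫ ξ, U ξ * ch ξ (p.2 - p.1)) ∂μ.prod μ := by
  have h1 : ∀ ξ : E, ((‖∫ q, ch ξ q ∂μ‖ ^ 2 : ℝ) : ℂ) =
      ∫ p : E × E, ch ξ (p.2 - p.1) ∂μ.prod μ := fun ξ => by
    simp only [sub_eq_neg_add, ch_add, ch_neg]
    rw [integral_prod_mul (fun q => (starRingEnd ℂ) (ch ξ q)) (ch ξ), integral_conj, mul_comm,
      Complex.mul_conj, Complex.normSq_eq_norm_sq]
  simp only [h1, ← integral_const_mul]
  exact integral_integral_swap (f := fun ξ (p : E × E) => U ξ * ch ξ (p.2 - p.1))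
    ((hU.comp_fst (μ.prod μ)).mul_bdd (c := 1) (ch_cont.comp (f := fun z : E × E × E =>
      (z.1, z.2.2 - z.2.1)) (by fun_prop)).aestronglyMeasurable
      (ae_of_all _ fun z => (ch_norm _ _).le))

theorem av (U : E → ℂ) (hU : Integrable U) (μ : Measure E) [IsProbabilityMeasure μ] (Q : Set E)
    (hQ : ∀ᵐ q ∂μ, q ∈ Q) (B : ℝ)
    (h : ∀ q ∈ Q, ∀ q' ∈ Q, ‖∫ ξ, U ξ * ch ξ (q' - q)‖ ≤ B) :
    ‖∫ ξ, U ξ * ((‖∫ q, ch ξ q ∂μ‖ ^ 2 : ℝ) : ℂ)‖ ≤ B := by
  rw [av_eq U hU μ]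
  refine (norm_integral_le_of_norm_le_const (C := B) ?_).trans_eq (by simp)
  filter_upwards [Measure.quasiMeasurePreserving_fst.ae hQ,
    Measure.quasiMeasurePreserving_snd.ae hQ] with p h1 h2 using h _ h1 _ h2

/-- `g x * g (x + v)` is the integral over `μ.prod μ` of the indicator of
`x + q ∈ A ∧ x + v + q' ∈ A` (`integral_prod_mul`); Fubini and translation invariance. -/
theorem corr_phys (A : Set E) (hA : MeasurableSet A) (hfin : volume A ≠ ⊤) (μ : Measure E)
    [IsProbabilityMeasure μ] (g : E → ℝ)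
    (hg : ∀ x, g x = ∫ q, A.indicator (fun _ => (1 : ℝ)) (x + q) ∂μ) (v : E) :
    Integrable (fun x => g x * g (x + v)) ∧ ∫ x, g x * g (x + v) =
      ∫ p : E × E, (volume (A ∩ {x | x + (v + (p.2 - p.1)) ∈ A})).toReal ∂μ.prod μ := by
  obtain ⟨T, hT⟩ : ∃ T : E × E → Set E, T = fun p => A ∩ {x | x + (v + (p.2 - p.1)) ∈ A} :=
    ⟨_, rfl⟩
  obtain ⟨f, hf⟩ : ∃ f : E → E × E → ℝ, f = fun x p =>
      A.indicator (fun _ => (1 : ℝ)) (x + p.1) * A.indicator (fun _ => (1 : ℝ)) (x + v + p.2) :=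
    ⟨_, rfl⟩
  have mT : ∀ p, MeasurableSet (T p) := fun p => by
    rw [hT]
    exact hA.inter (measurable_add_const _ hA)
  have fT : ∀ p, volume (T p) ≤ volume A := fun p => by
    rw [hT]
    exact measure_mono inter_subset_left
  have mi : Measurable (A.indicator fun _ => (1 : ℝ)) := measurable_const.indicator hA
  have mf : Measurable (Function.uncurry f) := by
    rw [hf]
    exact (mi.comp (by fun_prop)).mul (mi.comp (by fun_prop))
  have e1 : ∀ p x, f x p = (T p).indicator (fun _ => (1 : ℝ)) (x + p.1) := fun p x => by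
    have e : x + p.1 + (v + (p.2 - p.1)) = x + v + p.2 := by abel
    simp only [hf, hT]
    by_cases h1 : x + p.1 ∈ A <;> by_cases h2 : x + v + p.2 ∈ A <;> simp [h1, h2, e]
  have e2 : ∀ p, ∫ x, f x p = (volume (T p)).toReal := fun p => by
    simp only [e1]
    rw [integral_add_right_eq_self ((T p).indicator fun _ => (1 : ℝ)) p.1,
      integral_indicator_const _ (mT p), smul_eq_mul, mul_one, measureReal_def]
  have e3 : ∀ p x, ‖f x p‖ = f x p := fun p x => by
    rw [e1]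
    exact Real.norm_of_nonneg (indicator_nonneg (fun _ _ => zero_le_one) _)
  have i1 : ∀ p, Integrable fun x => f x p := fun p => by
    simp only [e1]
    exact ((integrable_indicator_iff (mT p)).2
      (integrableOn_const ((fT p).trans_lt hfin.lt_top).ne)).comp_add_right p.1
  have i2 : Integrable (Function.uncurry f) (volume.prod (μ.prod μ)) := by
    refine (integrable_prod_iff' mf.aestronglyMeasurable).2 ⟨ae_of_all _ i1, ?_⟩
    refine Integrable.of_bound
      mf.stronglyMeasurable.norm.integral_prod_left'.aestronglyMeasurable (volume A).toReal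
      (ae_of_all _ fun p => ?_)
    simp only [Function.uncurry_apply_pair, e3, e2]
    rw [Real.norm_of_nonneg ENNReal.toReal_nonneg]
    exact ENNReal.toReal_mono hfin (fT p)
  have e4 : ∀ x, g x * g (x + v) = ∫ p, f x p ∂μ.prod μ := fun x => by
    rw [hg, hg, hf]
    exact (integral_prod_mul (fun q => A.indicator (fun _ => (1 : ℝ)) (x + q))
      fun q => A.indicator (fun _ => (1 : ℝ)) (x + v + q)).symm
  simp only [e4]
  refine ⟨i2.integral_prod_left, ?_⟩
  rw [integral_integral_swap i2]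
  simp only [e2, hT]

/-- `corr_phys`, `av_eq` for `U ξ = W ξ * ch ξ v`. -/
theorem corr (A : Set E) (hA : MeasurableSet A) (hfin : volume A ≠ ⊤) (W : E → ℝ)
    (hW : Integrable W)
    (hs : ∀ v, (((volume (A ∩ {x | x + v ∈ A})).toReal : ℝ) : ℂ) = ∫ ξ, (W ξ : ℂ) * ch ξ v)
    (μ : Measure E) [IsProbabilityMeasure μ] (g : E → ℝ)
    (hg : ∀ x, g x = ∫ q, A.indicator (fun _ => (1 : ℝ)) (x + q) ∂μ) (v : E) :
    Integrable (fun x => g x * g (x + v)) ∧ ∫ x, g x * g (x + v) ≤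
      ‖∫ ξ, (W ξ : ℂ) * ch ξ v * ((‖∫ q, ch ξ q ∂μ‖ ^ 2 : ℝ) : ℂ)‖ := by
  obtain ⟨h1, h2⟩ := corr_phys A hA hfin μ g hg v
  refine ⟨h1, ?_⟩
  rw [av_eq (fun ξ => (W ξ : ℂ) * ch ξ v) (hW.ofReal.mul_bdd (c := 1)
    (ch_cont.comp (f := fun ξ : E => (ξ, v)) (by fun_prop)).aestronglyMeasurable
    (ae_of_all _ fun z => (ch_norm _ _).le)) μ]
  simp only [mul_assoc, ← ch_add, ← hs]
  rw [integral_complex_ofReal, ← h2, Complex.norm_real]
  exact le_abs_self _

end Pool.Agent.Lib.MP_eb34a4_co.Cb
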