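import Mathlib

/-! Windows, slabs and frequencies near the cube norm. -/

set_option autoImplicit false

open MeasureTheory Set
open scoped RealInnerProductSpace

namespace Pool.Agent.Lib.MP_eb34a4_co.Cb

variable {E : Type} [NormedAddCommGroup E] [InnerProductSpace ℝ E] {d : ℕ}

/-- A character. -/
noncomputable def ch (ξ v : E) : ℂ :=
  Complex.exp (((2 * Real.pi * ⟪ξ, v⟫ : ℝ) : ℂ) * Complex.I)

/-- The vector with given coordinates. -/
noncomputable def vec (e : OrthonormalBasis (Fin d) ℝ E) (q : Fin d → ℝ) : E := ∑ l, q l • e l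

/-- The size of a frequency in one coordinate. -/
noncomputable def fr (e : OrthonormalBasis (Fin d) ℝ E) (l : Fin d) (ξ : E) : ℝ :=
  |2 * Real.pi * ⟪ξ, e l⟫|

/-- The uniform probability on a small cube. -/
noncomputable def cub (d : ℕ) (s : ℝ) : Measure (Fin d → ℝ) :=
  Measure.pi fun _ => (ENNReal.ofReal s)⁻¹ • volume.restrict (Icc 0 s)

/-- The density of a set in a small cube. -/
noncomputable def sm (e : OrthonormalBasis (Fin d) ℝ E) (A : Set E) (s : ℝ) (x : E) : ℝ :=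
  ∫ q, A.indicator (fun _ => (1 : ℝ)) (x + vec e q) ∂cub d s

/-- The density of a set in a slab. -/
noncomputable def sl (e : OrthonormalBasis (Fin d) ℝ E) (A : Set E) (s : ℝ) (M : ℕ) (k : Fin d)
    (x : E) : ℝ :=
  (∑ m : Fin d → Fin M, sm e A s (x + vec e fun l => if l = k then 0 else s * (m l : ℕ))) / M ^ d

/-- A corner of the unit cube. -/
noncomputable def cor (e : OrthonormalBasis (Fin d) ℝ E) (i : Fin d → Bool) : E :=
  vec e fun l => if i l then 1 else 0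

/-- The transform of a segment. -/
noncomputable def sa (u : E) (ρ : ℝ) (ξ : E) : ℂ :=
  ((2 * ρ)⁻¹ : ℝ) * ∫ t in (-ρ)..ρ, ch ξ (t • u)

/-- The set contains concave arcs close to the curved facets. -/
def Arcs (e : OrthonormalBasis (Fin d) ℝ E) (lam ρ₀ θ : ℝ) (F : Set E) : Prop :=
  ∀ k l₀ : Fin d, k ≠ l₀ → ∀ ρ : ℝ, 0 < ρ → ∀ b : E, ⟪b, e k⟫ = 0 →
    (∀ l, |⟪b, e l⟫| + 3 * ρ ≤ 1 - ρ₀) → ∃ H : ℝ → ℝ, Continuous H ∧
      ConcaveOn ℝ (Icc (-(2 * ρ)) (2 * ρ)) H ∧ ∀ t ∈ Icc (-(2 * ρ)) (2 * ρ),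
        |H t - (1 - lam * ‖b + t • e l₀‖ ^ 2)| ≤ θ ∧ b + t • e l₀ + H t • e k ∈ F

/-- The mass of the bad frequencies. -/
noncomputable def bad [MeasureSpace E] (e : OrthonormalBasis (Fin d) ℝ E) (W : E → ℝ)
    (M a₁ a₂ : ℝ) : ℝ :=
  ∑ l, ((∫ ξ in {ξ | fr e l ξ ∈ Icc a₁ a₂}, W ξ) +
    ∫ ξ in {ξ | fr e l ξ ∈ Icc (M * a₁) (M * a₂)}, W ξ)

/-- A probability on the slab, with its transform bounded in each coordinate. -/
structure Win [MeasurableSpace E] (e : OrthonormalBasis (Fin d) ℝ E) (s ρ : ℝ) (k : Fin d)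
    (μ : Measure E) : Prop where
  prob : IsProbabilityMeasure μ
  box : ∀ᵐ q ∂μ, ∀ l, ⟪q, e l⟫ ∈ Icc 0 (if l = k then s else ρ)
  dec : ∀ ξ l, (if l = k then s else ρ) * fr e l ξ * ‖∫ q, ch ξ q ∂μ‖ ≤ 2

theorem ch_add (ξ u v : E) : ch ξ (u + v) = ch ξ u * ch ξ v := by
  unfold ch
  rw [← Complex.exp_add, inner_add_right]
  congr 1
  push_cast
  ring

theorem ch_norm (ξ v : E) : ‖ch ξ v‖ = 1 := Complex.norm_exp_ofReal_mul_I _

theorem ch_zero (ξ : E) : ch ξ 0 = 1 := by simp [ch]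

theorem ch_neg (ξ v : E) : ch ξ (-v) = (starRingEnd ℂ) (ch ξ v) := by
  unfold ch
  rw [← Complex.exp_conj, map_mul, Complex.conj_ofReal, Complex.conj_I, inner_neg_right]
  congr 1
  push_cast
  ring

theorem ch_cont : Continuous fun p : E × E => ch p.1 p.2 := by
  unfold ch
  fun_prop

theorem inner_vec (e : OrthonormalBasis (Fin d) ℝ E) (q : Fin d → ℝ) (l : Fin d) :
    ⟪vec e q, e l⟫ = q l := by
  classical
  unfold vec
  rw [sum_inner, Finset.sum_eq_single l]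
  · rw [real_inner_smul_left, e.inner_eq_one, mul_one]
  · intro j _ hj
    rw [real_inner_smul_left, e.inner_eq_zero hj, mul_zero]
  · simp

theorem vec_cont (e : OrthonormalBasis (Fin d) ℝ E) : Continuous (vec e) := by
  unfold vec
  fun_prop

theorem fr_cont (e : OrthonormalBasis (Fin d) ℝ E) (l : Fin d) : Continuous (fr e l) := by
  unfold fr
  fun_prop

theorem norm_sq_eq (e : OrthonormalBasis (Fin d) ℝ E) (x : E) : ‖x‖ ^ 2 = ∑ l, ⟪x, e l⟫ ^ 2 :=
  (e.sum_sq_inner_left x).symm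

end Pool.Agent.Lib.MP_eb34a4_co.Cb
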