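import Mathlib

/-! Finite product bounds. -/

set_option autoImplicit false

open Finset

namespace Pool.Agent.Lib.MP_eb34a4_co.Cb

variable {d M : ℕ}

theorem t1_swap (ψ : (Fin d → Fin M) → ℝ) (k : Fin d) :
    ∑ j : Fin M, ∑ m, ψ (Function.update m k j) = M * ∑ m, ψ m := by
  have h : Function.Involutive fun p : Fin M × (Fin d → Fin M) =>
      (p.2 k, Function.update p.2 k p.1) := fun p => by simp
  have e := h.bijective.sum_comp fun p => ψ p.2
  rw [Fintype.sum_prod_type, Fintype.sum_prod_type] at e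
  simpa using e

theorem t1_low (hM : 0 < M) (φ : (Fin d → Fin M) → ℝ) (k : Fin d) (G : ℕ → ℝ)
    (hG : ∀ j : Fin M, G j = (∑ m, φ (Function.update m k j)) / M ^ d) {γ : ℝ} (hγ : 0 ≤ γ) :
    ∑ m, (if γ < G (m k) then 0 else φ m) ≤ γ * M ^ d := by
  have hM' : (0 : ℝ) < M := Nat.cast_pos.2 hM
  refine le_of_mul_le_mul_left ?_ hM'
  rw [← t1_swap _ k]
  refine (sum_le_sum (g := fun _ => γ * (M : ℝ) ^ d) fun j _ => ?_).trans (by simp)
  simp only [Function.update_self]
  by_cases h : γ < G j
  · simp only [if_pos h, sum_const_zero]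
    positivity
  · simp only [if_neg h]
    rw [hG, not_lt, div_le_iff₀ (by positivity)] at h
    exact h

/-- Pointwise `φ m ≤ [all k, γ < G k (m k)] + ∑ k, φ m * [G k (m k) ≤ γ]`.  The first term sums to
the product (`Finset.prod_univ_sum` or `Fintype.card_piFinset`).  For the second,
`∑ m, ψ m = (∑ j, ∑ m, ψ (update m k j)) / M` (exchanging `j` and `m k` is an
involution, or `Equiv.piSplitAt`). -/
theorem pl (hM : 0 < M) (φ : (Fin d → Fin M) → ℝ) (h0 : ∀ m, 0 ≤ φ m) (h1 : ∀ m, φ m ≤ 1)
    (G : Fin d → ℕ → ℝ)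
    (hG : ∀ k (j : Fin M), G k j = (∑ m, φ (Function.update m k j)) / M ^ d) {γ : ℝ}
    (hγ : 0 ≤ γ) :
    (∑ m, φ m) / M ^ d ≤
      ∏ k, (((range M).filter fun j => γ < G k j).card : ℝ) / M + d * γ := by
  have hM' : (0 : ℝ) < (M : ℝ) ^ d := pow_pos (Nat.cast_pos.2 hM) d
  have h2 : ∀ m, φ m ≤ ∏ k, (if γ < G k (m k) then (1 : ℝ) else 0) +
      ∑ k, if γ < G k (m k) then 0 else φ m := fun m => by
    have h3 : ∀ k ∈ univ, 0 ≤ if γ < G k (m k) then 0 else φ m := fun k _ => by
      split_ifs
      exacts [le_rfl, h0 m]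
    by_cases h : ∀ k, γ < G k (m k)
    · simpa [h] using h1 m
    · obtain ⟨k, hk⟩ := not_forall.1 h
      have h4 := single_le_sum h3 (mem_univ k)
      rw [if_neg hk] at h4
      rw [prod_eq_zero (mem_univ k) (if_neg hk), zero_add]
      exact h4
  have h3 : ∑ m : Fin d → Fin M, ∏ k, (if γ < G k (m k) then (1 : ℝ) else 0) =
      ∏ k, (((range M).filter fun j => γ < G k j).card : ℝ) := by
    rw [← Fintype.piFinset_univ, ← prod_univ_sum (fun _ => univ)
      fun k (j : Fin M) => if γ < G k j then (1 : ℝ) else 0]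
    refine prod_congr rfl fun k _ => ?_
    rw [Fin.sum_univ_eq_sum_range fun j => if γ < G k j then (1 : ℝ) else 0, sum_boole]
  have h4 := sum_le_sum (s := univ) fun m _ => h2 m
  rw [sum_add_distrib, h3, sum_comm] at h4
  have h5 := sum_le_sum (s := univ) fun k _ => t1_low hM φ k (G k) (hG k) hγ
  rw [sum_const, card_univ, Fintype.card_fin, nsmul_eq_mul] at h5
  rw [prod_div_distrib, prod_const, card_univ, Fintype.card_fin, div_le_iff₀ hM', add_mul,
    div_mul_cancel₀ _ hM'.ne']
  linarith

/-- Let `S`, `T` be the two sets.  `T` and `{j < M | γ < G (j + c)}` are subsets of `range M`, the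
second has at least `card S - c` elements, and each common element adds at least `γ ^ 2`. -/
theorem pair (G G' : ℕ → ℝ) (h : ∀ j, 0 ≤ G j) (h' : ∀ j, 0 ≤ G' j) (M c : ℕ) {γ : ℝ}
    (hγ : 0 < γ) :
    (((range M).filter fun j => γ < G j).card : ℝ) +
        ((range M).filter fun j => γ < G' j).card ≤
      M + c + (∑ j ∈ range M, G (j + c) * G' j) / γ ^ 2 := by
  have h1 : ((range M).filter fun j => γ < G j).card ≤
      c + ((range M).filter fun j => γ < G (j + c)).card := by
    rw [card_filter, card_filter]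
    refine (sum_le_sum_of_subset (range_mono (Nat.le_add_left M c))).trans ?_
    rw [sum_range_add]
    refine add_le_add ((sum_le_card_nsmul _ _ 1 fun j _ => ?_).trans (by simp))
      (le_of_eq (sum_congr rfl fun j _ => by rw [add_comm]))
    split_ifs <;> omega
  have h2 : (((range M).filter fun j => γ < G (j + c)).card : ℝ) +
      ((range M).filter fun j => γ < G' j).card ≤
      ∑ j ∈ range M, (1 + G (j + c) * G' j / γ ^ 2) := by
    rw [card_filter, card_filter]
    push_cast
    rw [← sum_add_distrib]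
    refine sum_le_sum fun j _ => ?_
    have h3 : 0 ≤ G (j + c) * G' j / γ ^ 2 := div_nonneg (mul_nonneg (h _) (h' _)) (sq_nonneg _)
    split_ifs with a b
    · have h4 : 1 ≤ G (j + c) * G' j / γ ^ 2 := by
        rw [le_div_iff₀ (by positivity), one_mul, sq]
        exact mul_le_mul a.le b.le hγ.le (h _)
      linarith
    all_goals linarith
  rw [sum_add_distrib, ← sum_div, sum_const, card_range, nsmul_eq_mul, mul_one] at h2
  have h5 : (((range M).filter fun j => γ < G j).card : ℝ) ≤
      c + ((range M).filter fun j => γ < G (j + c)).card := by exact_mod_cast h1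
  linarith

theorem t2_pow {x : ℝ} (hx : 0 ≤ x) (n : ℕ) : (min 2 (1 + x)) ^ n ≤ 1 + 2 ^ n * x := by
  rcases le_total x 1 with h | h
  · rw [min_eq_right (by linarith)]
    have h1 : (1 + x) ^ n ≤ 1 + (2 ^ n - 1) * x := by
      induction n with
      | zero => simp
      | succ n ih =>
        have h2 : (1 : ℝ) ≤ 2 ^ n := one_le_pow₀ one_le_two
        have h3 := mul_le_mul_of_nonneg_right ih (by linarith : 0 ≤ 1 + x)
        have h4 := mul_nonneg (mul_nonneg (sub_nonneg.2 h2) hx) (sub_nonneg.2 h)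
        rw [pow_succ, pow_succ]
        nlinarith
    linarith
  · rw [min_eq_left (by linarith)]
    have h2 : (0 : ℝ) < 2 ^ n := by positivity
    nlinarith

/-- Let `α k b` be the largest `σ i k` with `i k = b`.  The sum is at most
`∏ k, (α k false + α k true)` (`Finset.prod_univ_sum`), each factor is at most `min 2 (1 + x)`,
and its power `d` is at most `1 + 2 ^ d * x` (induction on `d` for `x ≤ 1`). -/
theorem corners (σ : (Fin d → Bool) → Fin d → ℝ) (h0 : ∀ i k, 0 ≤ σ i k) (h1 : ∀ i k, σ i k ≤ 1)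
    {x : ℝ} (hx : 0 ≤ x)
    (h : ∀ k i i', i k = false → i' k = true → σ i k + σ i' k ≤ 1 + x) :
    ∑ i, ∏ k, σ i k ≤ 1 + 2 ^ d * x := by
  classical
  choose m hm hx' using fun (k : Fin d) (b : Bool) => exists_max_image
    (univ.filter fun i : Fin d → Bool => i k = b) (fun i => σ i k) ⟨fun _ => b, by simp⟩
  have h2 : ∑ i, ∏ k, σ i k ≤ ∑ i : Fin d → Bool, ∏ k, σ (m k (i k)) k :=
    sum_le_sum fun i _ => prod_le_prod (fun k _ => h0 i k) fun k _ => hx' k (i k) i (by simp)
  have h3 := prod_univ_sum (fun _ : Fin d => (univ : Finset Bool)) fun k b => σ (m k b) k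
  rw [Fintype.piFinset_univ] at h3
  refine h2.trans (h3.symm.le.trans (le_trans ?_ (t2_pow hx d)))
  refine (prod_le_prod (g := fun _ => min 2 (1 + x))
    (fun k _ => sum_nonneg fun b _ => h0 _ k) fun k _ => ?_).trans (by simp)
  rw [Fintype.sum_bool]
  have h4 := h k _ _ (mem_filter.1 (hm k false)).2 (mem_filter.1 (hm k true)).2
  exact le_min (by linarith [h1 (m k true) k, h1 (m k false) k]) (by linarith)

end Pool.Agent.Lib.MP_eb34a4_co.Cb
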