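import Pool.Agent.Lib.MP_eb34a4_co.Cb.Defs
import Pool.Agent.Lib.MP_eb34a4_co.Typical
import Pool.Agent.Lib.MP_eb34a4_co.MG.Height
import Pool.Agent.Lib.MP_eb34a4_co.MG.Baire

/-! A cube with curved facets. -/

set_option autoImplicit false

open MeasureTheory Set
open scoped RealInnerProductSpace

namespace Pool.Agent.Lib.MP_eb34a4_co.Cb

variable {E : Type} [NormedAddCommGroup E] [InnerProductSpace ℝ E] [FiniteDimensional ℝ E] {d : ℕ}

/-- The cube with curved facets. -/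
def cc (e : OrthonormalBasis (Fin d) ℝ E) (lam : ℝ) : Set E :=
  {x | ∀ k, |⟪x, e k⟫| + lam * ∑ l ∈ Finset.univ.erase k, ⟪x, e l⟫ ^ 2 ≤ 1}

/-- Closed, bounded (`norm_sq_eq`), convex, symmetric, and a neighbourhood of zero. -/
theorem cc_body (e : OrthonormalBasis (Fin d) ℝ E) {lam : ℝ} (hlam : 0 < lam) :
    ∃ K₀ : Body E, (K₀.1 : Set E) = cc e lam := by
  have hcont : ∀ k, Continuous fun x : E =>
      |⟪x, e k⟫| + lam * ∑ l ∈ Finset.univ.erase k, ⟪x, e l⟫ ^ 2 := fun k => by fun_prop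
  have hcl : IsClosed (cc e lam) := by
    simp only [cc, Set.ofPred_forall]
    exact isClosed_iInter fun k => isClosed_le (hcont k) continuous_const
  have hbd : Bornology.IsBounded (cc e lam) := by
    refine isBounded_iff_forall_norm_le.2 ⟨d + 1, fun x hx => ?_⟩
    have h1 : ∀ k, ⟪x, e k⟫ ^ 2 ≤ 1 := fun k => by
      have h2 := hx k
      have h3 : 0 ≤ lam * ∑ l ∈ Finset.univ.erase k, ⟪x, e l⟫ ^ 2 := by positivity
      exact (sq_le_one_iff_abs_le_one _).2 (by linarith)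
    have h4 : ‖x‖ ^ 2 ≤ d := by
      rw [norm_sq_eq e]
      simpa using Finset.sum_le_sum fun k (_ : k ∈ Finset.univ) => h1 k
    nlinarith [norm_nonneg x, sq_nonneg (‖x‖ - 1)]
  have hcv : Convex ℝ (cc e lam) := by
    intro x hx y hy a b ha hb hab k
    have h1 := hx k
    have h2 := hy k
    have h3 : |⟪a • x + b • y, e k⟫| ≤ a * |⟪x, e k⟫| + b * |⟪y, e k⟫| := by
      rw [inner_add_left, real_inner_smul_left, real_inner_smul_left]
      refine (abs_add_le _ _).trans (le_of_eq ?_)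
      rw [abs_mul, abs_mul, abs_of_nonneg ha, abs_of_nonneg hb]
    have h4 : ∑ l ∈ Finset.univ.erase k, ⟪a • x + b • y, e l⟫ ^ 2 ≤
        a * ∑ l ∈ Finset.univ.erase k, ⟪x, e l⟫ ^ 2 +
          b * ∑ l ∈ Finset.univ.erase k, ⟪y, e l⟫ ^ 2 := by
      rw [Finset.mul_sum, Finset.mul_sum, ← Finset.sum_add_distrib]
      refine Finset.sum_le_sum fun l _ => ?_
      rw [inner_add_left, real_inner_smul_left, real_inner_smul_left]
      obtain rfl : b = 1 - a := by linarith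
      nlinarith [mul_nonneg (mul_nonneg ha hb) (sq_nonneg (⟪x, e l⟫ - ⟪y, e l⟫))]
    have h5 := mul_le_mul_of_nonneg_left h4 hlam.le
    have h6 := mul_le_mul_of_nonneg_left h1 ha
    have h7 := mul_le_mul_of_nonneg_left h2 hb
    nlinarith
  have hsy : ∀ x ∈ cc e lam, -x ∈ cc e lam := fun x hx k => by
    simpa only [inner_neg_left, abs_neg, neg_sq] using hx k
  have hnh : cc e lam ∈ nhds (0 : E) := by
    have h1 : ∀ᶠ x : E in nhds 0, ∀ k,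
        |⟪x, e k⟫| + lam * ∑ l ∈ Finset.univ.erase k, ⟪x, e l⟫ ^ 2 ≤ 1 :=
      Filter.eventually_all.2 fun k =>
        (hcont k).continuousAt.eventually (ge_mem_nhds (by simp))
    exact h1
  exact ⟨⟨⟨⟨cc e lam, Metric.isCompact_of_isClosed_isBounded hcl hbd⟩, 0, mem_of_mem_nhds hnh⟩,
    hcv, hsy, mem_interior_iff_mem_nhds.2 hnh⟩, rfl⟩

omit [FiniteDimensional ℝ E] in
theorem t8_coord (e : OrthonormalBasis (Fin d) ℝ E) (x c : E) (l : Fin d) :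
    |⟪x, e l⟫ - ⟪c, e l⟫| ≤ dist x c := by
  rw [← inner_sub_left, dist_eq_norm]
  simpa [e.orthonormal.1 l] using abs_real_inner_le_norm (x - c) (e l)

omit [FiniteDimensional ℝ E] in
theorem t8_eq (e : OrthonormalBasis (Fin d) ℝ E) {k : Fin d} {u : E} (hu : ⟪u, e k⟫ = 0) (a : ℝ) :
    ⟪u + a • e k, e k⟫ = a := by
  rw [inner_add_left, hu, real_inner_smul_left, e.inner_eq_one, mul_one, zero_add]

omit [FiniteDimensional ℝ E] in
theorem t8_ne (e : OrthonormalBasis (Fin d) ℝ E) {k l : Fin d} (h : l ≠ k) (u : E) (a : ℝ) :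
    ⟪u + a • e k, e l⟫ = ⟪u, e l⟫ := by
  rw [inner_add_left, real_inner_smul_left, e.inner_eq_zero h.symm, mul_zero, add_zero]

omit [FiniteDimensional ℝ E] in
theorem t8_norm (e : OrthonormalBasis (Fin d) ℝ E) {k : Fin d} {u : E} (hu : ⟪u, e k⟫ = 0) :
    ‖u‖ ^ 2 = ∑ l ∈ Finset.univ.erase k, ⟪u, e l⟫ ^ 2 := by
  rw [norm_sq_eq e, ← Finset.add_sum_erase _ _ (Finset.mem_univ k), hu]
  simp

theorem t8_sum (k : Fin d) (f g : Fin d → ℝ) {c : ℝ} (hc : 0 ≤ c)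
    (h : ∀ l, l ≠ k → f l ≤ g l + c) :
    ∑ l ∈ Finset.univ.erase k, f l ≤ ∑ l ∈ Finset.univ.erase k, g l + d * c := by
  refine (Finset.sum_le_sum fun l hl => h l (Finset.ne_of_mem_erase hl)).trans ?_
  rw [Finset.sum_add_distrib, Finset.sum_const, nsmul_eq_mul]
  refine add_le_add le_rfl (mul_le_mul_of_nonneg_right ?_ hc)
  exact_mod_cast (Finset.card_le_univ _).trans_eq (Fintype.card_fin d)

theorem t8_sq {a b c : ℝ} (ha : |a| ≤ 1) (hb : |b| ≤ 1) (h : |a - b| ≤ c) :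
    a ^ 2 ≤ b ^ 2 + 2 * c := by
  have h1 : |(a - b) * (a + b)| ≤ c * 2 := by
    rw [abs_mul]
    exact mul_le_mul h ((abs_add_le a b).trans (by linarith)) (abs_nonneg _)
      ((abs_nonneg _).trans h)
  have h2 := le_abs_self ((a - b) * (a + b))
  linarith

/-- All coordinates of a point of the ball are at most one in size. -/
theorem cc_in (e : OrthonormalBasis (Fin d) ℝ E) {lam ρ₀ η δ : ℝ} (hlam : 0 < lam)
    (h : 2 * (lam * d) ≤ ρ₀) (hδ : 0 < δ) (hη : η ≤ 1 / 4) (h1 : 16 * δ ≤ η) (h2 : 4 * δ ≤ ρ₀)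
    (k : Fin d) (u : E) (hu : ⟪u, e k⟫ = 0) (hu' : ∀ l, |⟪u, e l⟫| ≤ 1 - ρ₀) :
    Metric.ball (u + (1 - lam * ‖u‖ ^ 2 - η) • e k) (2 * δ) ⊆ cc e lam := by
  intro x hx
  have hρ : ρ₀ ≤ 1 := by linarith [hu' k, abs_nonneg ⟪u, e k⟫]
  have hu1 : ∀ l, |⟪u, e l⟫| ≤ 1 := fun l => by linarith [hu' l]
  have hn : ‖u‖ ^ 2 ≤ d := by
    have := t8_sum k (fun l => ⟪u, e l⟫ ^ 2) (fun _ => 0) zero_le_one
      fun l _ => by simpa using hu1 l
    rw [t8_norm e hu]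
    simpa using this
  have hn1 := mul_le_mul_of_nonneg_left hn hlam.le
  have hn0 : 0 ≤ lam * ‖u‖ ^ 2 := by positivity
  have hc := fun l => (t8_coord e x _ l).trans (Metric.mem_ball.1 hx).le
  have hk : |⟪x, e k⟫| ≤ 1 - lam * ‖u‖ ^ 2 - η + 2 * δ := by
    have := abs_le.1 (hc k)
    rw [t8_eq e hu] at this
    exact abs_le.2 ⟨by linarith [this.1], by linarith [this.2]⟩
  have hl : ∀ l, l ≠ k → |⟪x, e l⟫ - ⟪u, e l⟫| ≤ 2 * δ := fun l hl => by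
    have := hc l
    rwa [t8_ne e hl] at this
  have hl1 : ∀ l, l ≠ k → |⟪x, e l⟫| ≤ 1 - ρ₀ + 2 * δ := fun l h => by
    linarith [abs_sub_abs_le_abs_sub ⟪x, e l⟫ ⟪u, e l⟫, hl l h, hu' l]
  have hx1 : ∀ l, |⟪x, e l⟫| ≤ 1 := fun l => by
    by_cases h : l = k
    · rw [h]
      linarith
    · linarith [hl1 l h]
  intro j
  by_cases hj : j = k
  · rw [hj]
    have h3 := t8_sum k (fun l => ⟪x, e l⟫ ^ 2) (fun l => ⟪u, e l⟫ ^ 2) (c := 2 * (2 * δ))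
      (by positivity) fun l h => t8_sq (hx1 l) (hu1 l) (hl l h)
    rw [← t8_norm e hu] at h3
    have h4 := mul_le_mul_of_nonneg_left h3 hlam.le
    have h5 := mul_le_mul_of_nonneg_right (h.trans hρ) hδ.le
    linarith
  · have h3 := t8_sum j (fun l => ⟪x, e l⟫ ^ 2) (fun _ => 0) zero_le_one
      fun l _ => by simpa using hx1 l
    rw [Finset.sum_const_zero, zero_add, mul_one] at h3
    have h4 := mul_le_mul_of_nonneg_left h3 hlam.le
    linarith [hl1 j hj]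

theorem cc_out (e : OrthonormalBasis (Fin d) ℝ E) {lam ρ₀ η δ : ℝ} (hlam : 0 < lam)
    (h : 2 * (lam * d) ≤ ρ₀) (hδ : 0 < δ) (h1 : 16 * δ ≤ η)
    (k : Fin d) (u : E) (hu : ⟪u, e k⟫ = 0) (hu' : ∀ l, |⟪u, e l⟫| ≤ 1 - ρ₀) (z : ℝ)
    (hz : 1 - lam * ‖u‖ ^ 2 + η < z) (y : E) (hy : y ∈ cc e lam) : δ ≤ dist (u + z • e k) y := by
  by_contra hlt
  have hρ : ρ₀ ≤ 1 := by linarith [hu' k, abs_nonneg ⟪u, e k⟫]
  have hd : 0 ≤ lam * d := by positivity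
  have hu1 : ∀ l, |⟪u, e l⟫| ≤ 1 := fun l => by linarith [hu' l]
  have hy1 : ∀ l, |⟪y, e l⟫| ≤ 1 := fun l => by
    have h2 : 0 ≤ lam * ∑ j ∈ Finset.univ.erase l, ⟪y, e j⟫ ^ 2 :=
      mul_nonneg hlam.le (Finset.sum_nonneg fun j _ => sq_nonneg _)
    linarith [hy l]
  have hc := fun l => (t8_coord e _ y l).trans (not_le.1 hlt).le
  have hk := (abs_le.1 (hc k)).2
  rw [t8_eq e hu] at hk
  have h3 := t8_sum k (fun l => ⟪u, e l⟫ ^ 2) (fun l => ⟪y, e l⟫ ^ 2) (c := 2 * δ)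
    (by positivity) fun l h => t8_sq (hu1 l) (hy1 l) (by
      have := hc l
      rwa [t8_ne e h] at this)
  rw [← t8_norm e hu] at h3
  have h4 := mul_le_mul_of_nonneg_left h3 hlam.le
  have h5 := mul_le_mul_of_nonneg_right (h.trans hρ) hδ.le
  linarith [hy k, le_abs_self ⟪y, e k⟫]

/-- `MG.exists_height` with `η = min θ (1 / 4)`, `ball_subset_of_near`, `MG.baire_near`, as at the
end of `MG.exists_caps`. -/
theorem geo (e : OrthonormalBasis (Fin d) ℝ E) {lam ρ₀ θ : ℝ} (hlam : 0 < lam) (hρ : 0 < ρ₀)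
    (h : 2 * (lam * d) ≤ ρ₀) (hθ : 0 < θ) :
    ∃ (K₀ : Body E) (δ : ℝ), 0 < δ ∧ (K₀.1 : Set E) = cc e lam ∧ ∀ K : Body E, dist K K₀ < δ →
      Arcs e lam ρ₀ θ (frontier (K.1 : Set E)) := by
  obtain ⟨K₀, hK₀⟩ := cc_body e hlam
  obtain ⟨η, hη, hηθ, hη1⟩ : ∃ η : ℝ, 0 < η ∧ η ≤ θ ∧ η ≤ 1 / 4 :=
    ⟨min θ (1 / 4), lt_min hθ (by norm_num), min_le_left _ _, min_le_right _ _⟩
  obtain ⟨δ, hδ, h1, h2⟩ : ∃ δ : ℝ, 0 < δ ∧ 16 * δ ≤ η ∧ 4 * δ ≤ ρ₀ :=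
    ⟨min (η / 16) (ρ₀ / 4), lt_min (by positivity) (by positivity),
      by linarith [min_le_left (η / 16) (ρ₀ / 4)], by linarith [min_le_right (η / 16) (ρ₀ / 4)]⟩
  refine ⟨K₀, δ, hδ, hK₀, fun K hK k l₀ hkl ρ hρ' b hb hb' => ?_⟩
  rw [Subtype.dist_eq] at hK
  obtain ⟨n1, n2⟩ := MG.baire_near hK
  rw [hK₀] at n1 n2
  have hu : ∀ t : ℝ, ⟪b + t • e l₀, e k⟫ = 0 := fun t => by
    rw [inner_add_left, real_inner_smul_left, hb, e.inner_eq_zero hkl.symm, mul_zero, add_zero]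
  have hu' : ∀ t ∈ Icc (-(3 * ρ)) (3 * ρ), ∀ l, |⟪b + t • e l₀, e l⟫| ≤ 1 - ρ₀ := fun t ht l => by
    have h3 : |⟪e l₀, e l⟫| ≤ 1 := by
      simpa using abs_real_inner_le_norm (e l₀) (e l)
    have h4 : |t| ≤ 3 * ρ := abs_le.2 ht
    have h5 := mul_le_mul h4 h3 (abs_nonneg _) (by positivity)
    have h6 := abs_add_le ⟪b, e l⟫ (t * ⟪e l₀, e l⟫)
    rw [abs_mul] at h6
    rw [inner_add_left, real_inner_smul_left]
    linarith [hb' l]
  obtain ⟨H, c1, c2, c3⟩ := MG.exists_height (K.1 : Set E) K.1.isCompact K.2.1 b (e l₀) (e k)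
    (fun t => 1 - lam * ‖b + t • e l₀‖ ^ 2) ρ η hρ'
    (fun t ht => ball_subset_of_near (K.1 : Set E) (cc e lam) K.1.nonempty K.1.isCompact K.2.1 δ
      hδ (fun y hy => by
        obtain ⟨x, hx, hxy⟩ := n2 y hy
        exact ⟨x, hx, by rwa [dist_comm]⟩) _
      (cc_in e hlam h hδ hη1 h1 h2 k _ (hu t) (hu' t ht)) (Metric.mem_ball_self hδ))
    (fun t ht z hz hm => by
      obtain ⟨y, hy, hxy⟩ := n1 _ hm
      exact absurd hxy (not_lt.2 (cc_out e hlam h hδ h1 k _ (hu t) (hu' t ht) z hz y hy)))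
  exact ⟨H, c1, c2, fun t ht => ⟨(c3 t ht).1.trans hηθ, (c3 t ht).2⟩⟩

end Pool.Agent.Lib.MP_eb34a4_co.Cb
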