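import Pool.Agent.Lib.MP_eb34a4_co.Cb.ArcB
import Pool.Agent.Lib.MP_eb34a4_co.Cb.Corr

/-! Slabs at distance one are uncorrelated. -/

set_option autoImplicit false

open MeasureTheory Set
open scoped RealInnerProductSpace

namespace Pool.Agent.Lib.MP_eb34a4_co.Cb

variable {E : Type} [NormedAddCommGroup E] [InnerProductSpace ℝ E] [FiniteDimensional ℝ E]
  [MeasurableSpace E] [BorelSpace E] {d : ℕ}

omit [FiniteDimensional ℝ E] [MeasurableSpace E] [BorelSpace E] in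
/-- Coordinatewise: `|(b + t • e l₀)_l - y l| ≤ 7 * ρ` and both are at most one in size
(`norm_sq_eq`, `inner_vec`). -/
theorem key_num (e : OrthonormalBasis (Fin d) ℝ E) {ρ s t : ℝ} (hρ : 0 < ρ) (hρ1 : ρ ≤ 1 / 10)
    {k l₀ : Fin d} (hk : k ≠ l₀) (y : Fin d → ℝ) (hy : ∀ l, |y l| ≤ 1) (hyk : y k = 0) (q q' : E)
    (hq : ∀ l, ⟪q, e l⟫ ∈ Icc 0 (if l = k then s else ρ))
    (hq' : ∀ l, ⟪q', e l⟫ ∈ Icc 0 (if l = k then s else ρ)) (b : E)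
    (hb : b = vec e (fun l => (1 - 5 * ρ) * y l) + (q' - q) - ⟪q' - q, e k⟫ • e k)
    (ht : t ∈ Icc (-ρ) ρ) :
    ⟪b, e k⟫ = 0 ∧ (∀ l, |⟪b, e l⟫| + 3 * ρ ≤ 1 - ρ) ∧ |⟪q' - q, e k⟫| ≤ s ∧
      |‖b + t • e l₀‖ ^ 2 - ∑ l, y l ^ 2| ≤ 14 * d * ρ := by
  classical
  have hc : ∀ l, ⟪b, e l⟫ = (1 - 5 * ρ) * y l + ⟪q' - q, e l⟫ - ⟪q' - q, e k⟫ * ⟪e k, e l⟫ :=
    fun l => by rw [hb, inner_sub_left, inner_add_left, inner_vec, real_inner_smul_left]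
  have hd : ∀ l, |⟪q' - q, e l⟫| ≤ if l = k then s else ρ := fun l => by
    rw [inner_sub_left, abs_le]
    constructor <;> linarith [(hq l).1, (hq l).2, (hq' l).1, (hq' l).2]
  have h0 : ⟪b, e k⟫ = 0 := by rw [hc, hyk, e.inner_eq_one]; ring
  have h1 : ∀ l, |⟪b, e l⟫ - (1 - 5 * ρ) * y l| ≤ ρ := fun l => by
    by_cases h : l = k
    · rw [h, h0, hyk]
      simpa using hρ.le
    · have := hd l
      rw [if_neg h] at this
      rwa [hc, e.inner_eq_zero (Ne.symm h), mul_zero, sub_zero, add_sub_cancel_left]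
  have h2 : ∀ l, |⟪b, e l⟫| + 3 * ρ ≤ 1 - ρ := fun l => by
    obtain ⟨a1, a2⟩ := abs_le.1 (h1 l)
    obtain ⟨a3, a4⟩ := abs_le.1 (hy l)
    have : |⟪b, e l⟫| ≤ 1 - 4 * ρ := abs_le.2 ⟨by nlinarith, by nlinarith⟩
    linarith
  refine ⟨h0, h2, by simpa using hd k, ?_⟩
  rw [norm_sq_eq e, ← Finset.sum_sub_distrib]
  refine (Finset.abs_sum_le_sum_abs _ _).trans
    ((Finset.sum_le_card_nsmul _ _ (14 * ρ) fun l _ => ?_).trans (by simp; linarith))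
  have h3 : |⟪b + t • e l₀, e l⟫ - ⟪b, e l⟫| ≤ ρ := by
    rw [inner_add_left, add_sub_cancel_left, real_inner_smul_left]
    by_cases h : l₀ = l
    · rw [h, e.inner_eq_one, mul_one]
      exact abs_le.2 ht
    · rw [e.inner_eq_zero h, mul_zero, abs_zero]
      exact hρ.le
  have h4 := h2 l
  obtain ⟨a1, a2⟩ := abs_le.1 (h1 l)
  obtain ⟨a3, a4⟩ := abs_le.1 (hy l)
  obtain ⟨a5, a6⟩ := abs_le.1 h3
  have a7 := le_abs_self ⟪b, e l⟫
  have a8 := neg_abs_le ⟪b, e l⟫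
  generalize ⟪b + t • e l₀, e l⟫ = x at *
  have b1 : |x - y l| ≤ 7 * ρ := abs_le.2 ⟨by nlinarith, by nlinarith⟩
  have b2 : |x + y l| ≤ 2 := abs_le.2 ⟨by linarith, by linarith⟩
  rw [sq_sub_sq, abs_mul]
  calc _ ≤ 2 * (7 * ρ) := by gcongr
    _ = _ := by ring

/-- `av` with `Q` the box; for `q`, `q'` in it `key_num`, the arc at `b`, and `arc` with
`h₀ = 1 - c * (ρ / M) + ⟪q' - q, e k⟫`, `c₀ = 1 - lam * ‖b‖ ^ 2`, `μ = 2 * lam * ⟪b, e l₀⟫`;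
`|H t - h₀| ≤ 24 * d * ρ / M`. -/
theorem key_lo (e : OrthonormalBasis (Fin d) ℝ E) (W : E → ℝ) (hW : Integrable W)
    (hW0 : ∀ ξ, 0 ≤ W ξ) (F : Set E) (hz : ∀ v ∈ F, ∫ ξ, (W ξ : ℂ) * ch ξ v = 0)
    {M ρ ρ₀ θ τ c : ℝ} (hM : 0 < M) (hA : Arcs e (1 / M) ρ₀ θ F) (h0 : ρ₀ ≤ ρ) (hρ : 0 < ρ)
    (hρ1 : ρ ≤ 1 / 10) (hτ : 0 < τ) (hτ1 : τ ≤ 1) (hθ : 4 * θ ≤ 1 / M * (τ * ρ) ^ 2)
    {k l₀ : Fin d} (hk : k ≠ l₀) {μ : Measure E} (hμ : Win e (ρ / M) ρ k μ) (y : Fin d → ℝ)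
    (hy : ∀ l, |y l| ≤ 1) (hyk : y k = 0) (hc : |c * ρ - ∑ l, y l ^ 2| ≤ ρ) :
    ‖∫ ξ, (W ξ : ℂ) * (if fr e k ξ < M * (τ / (24 * d * ρ)) then sa (e l₀) ρ ξ else 0) *
        ch ξ (vec e (fun l => (1 - 5 * ρ) * y l) + (1 - c * (ρ / M)) • e k) *
          ((‖∫ q, ch ξ q ∂μ‖ ^ 2 : ℝ) : ℂ)‖ ≤
      2 * τ * (∫ ξ, W ξ) + ∫ ξ in {ξ | fr e k ξ ∈
        Icc (M * (τ / (24 * d * ρ))) (M * (8 / (τ ^ 2 * ρ ^ 2)))}, W ξ := by
  have := hμ.prob
  have d1 : (1 : ℝ) ≤ d := by exact_mod_cast k.pos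
  refine av _ ?_ μ {q | ∀ l, ⟪q, e l⟫ ∈ Icc 0 (if l = k then ρ / M else ρ)} hμ.box _
    fun q hq q' hq' => ?_
  · refine Integrable.mono' hW.norm (((Complex.continuous_ofReal.comp_aestronglyMeasurable
      hW.aestronglyMeasurable).mul (Measurable.ite (measurableSet_lt (fr_cont e k).measurable
        measurable_const) (sa_cont _ _).measurable measurable_const).aestronglyMeasurable).mul
      (ch_cont.comp (continuous_id.prodMk continuous_const)).aestronglyMeasurable)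
      (Filter.Eventually.of_forall fun ξ => ?_)
    rw [norm_mul, norm_mul, ch_norm, mul_one, Complex.norm_real]
    refine mul_le_of_le_one_right (norm_nonneg _) ?_
    split_ifs
    · exact sa_norm _ hρ ξ
    · simp
  obtain ⟨b, hb⟩ : ∃ b, b = vec e (fun l => (1 - 5 * ρ) * y l) + (q' - q) -
    ⟪q' - q, e k⟫ • e k := ⟨_, rfl⟩
  have num := fun t (ht : t ∈ Icc (-ρ) ρ) => key_num e hρ hρ1 hk y hy hyk q q' hq hq' b hb ht
  obtain ⟨n1, n2, n3, -⟩ := num 0 ⟨by linarith, hρ.le⟩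
  obtain ⟨H, H1, H2, H3⟩ := hA k l₀ hk ρ hρ b n1 fun l => (n2 l).trans (by linarith)
  have sub : ∀ t ∈ Icc (-ρ) ρ, t ∈ Icc (-(2 * ρ)) (2 * ρ) := fun t ht =>
    ⟨by linarith [ht.1], by linarith [ht.2]⟩
  have ev : vec e (fun l => (1 - 5 * ρ) * y l) + (1 - c * (ρ / M)) • e k + (q' - q) =
      b + (1 - c * (ρ / M) + ⟪q' - q, e k⟫) • e k := by
    rw [hb, add_smul]
    abel
  simp only [mul_assoc _ (ch _ _) (ch _ _), ← ch_add, ev]
  refine arc W hW hW0 b (e l₀) (e k) H (μ := 2 * (1 / M) * ⟪b, e l₀⟫)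
    (c₀ := 1 - 1 / M * ‖b‖ ^ 2) H1 H2 hρ (one_div_pos.2 hM) hτ hτ1 hθ (fun t ht => ?_)
    (fun t ht => ?_) (le_of_eq (by field_simp)) fun t ht => hz _ (H3 t (sub t ht)).2
  · refine le_of_eq_of_le (congrArg abs ?_) (H3 t ht).1
    rw [norm_add_sq_real, real_inner_smul_right, norm_smul, e.norm_eq_one, mul_one,
      Real.norm_eq_abs, sq_abs]
    ring
  · obtain ⟨a1, a2⟩ := abs_le.1 (H3 t (sub t ht)).1
    obtain ⟨a3, a4⟩ := abs_le.1 (num t ht).2.2.2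
    obtain ⟨a5, a6⟩ := abs_le.1 hc
    obtain ⟨a7, a8⟩ := abs_le.1 n3
    have m0 : 0 < 1 / M := one_div_pos.2 hM
    have b0 : (τ * ρ) ^ 2 ≤ 4 * ρ := by
      have : τ * ρ ≤ ρ := mul_le_of_le_one_left hρ.le hτ1
      nlinarith [mul_pos hτ hρ]
    have b1 : θ ≤ 1 / M * ρ := by nlinarith
    have b2 : ρ ≤ d * ρ := le_mul_of_one_le_left hρ.le d1
    have b3 : |c * ρ - ‖b + t • e l₀‖ ^ 2| ≤ 15 * (d * ρ) :=
      abs_le.2 ⟨by linarith, by linarith⟩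
    obtain ⟨b4, b5⟩ := abs_le.1 b3
    have b6 := mul_le_mul_of_nonneg_left b4 m0.le
    have b7 := mul_le_mul_of_nonneg_left b5 m0.le
    have b8 := mul_le_mul_of_nonneg_left b2 m0.le
    have b9 := mul_pos m0 hρ
    rw [div_eq_mul_one_div ρ M] at a7 a8 ⊢
    have c1 : |H t - (1 - c * (ρ * (1 / M)) + ⟪q' - q, e k⟫)| ≤ 1 / M * (24 * d * ρ) :=
      abs_le.2 ⟨by nlinarith, by nlinarith⟩
    calc _ ≤ M * (τ / (24 * d * ρ)) * (1 / M * (24 * d * ρ)) := by gcongr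
      _ = τ := by field_simp

omit [FiniteDimensional ℝ E] [MeasurableSpace E] [BorelSpace E] in
theorem t12_ch (e : OrthonormalBasis (Fin d) ℝ E) (q : Fin d → ℝ) (ξ : E) :
    ‖ch ξ (vec e q) - 1‖ ≤ ∑ l, |q l| * fr e l ξ := by
  refine (MG.key_sub_one_abs _).trans ?_
  rw [vec, inner_sum, Finset.mul_sum]
  refine (Finset.abs_sum_le_sum_abs _ _).trans (Finset.sum_le_sum fun l _ => le_of_eq ?_)
  rw [real_inner_smul_right, mul_left_comm, abs_mul, fr]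

omit [FiniteDimensional ℝ E] [MeasurableSpace E] [BorelSpace E] in
/-- Cases on `fr e k ξ`; in the low case on the `fr e l ξ`, `l ≠ k`: one in the interval, one
above it (`n ≤ τ / 2`), or all below it (`sa_one`, `MG.key_sub_one_abs`). -/
theorem key_mult (e : OrthonormalBasis (Fin d) ℝ E) {M ρ τ n : ℝ} (hM : 0 < M) (hρ : 0 < ρ)
    (hρ1 : ρ ≤ 1 / 10) (hτ : 0 < τ) (hτ1 : τ ≤ 1) {k l₀ : Fin d} (hk : k ≠ l₀) (y : Fin d → ℝ)
    (hy : ∀ l, |y l| ≤ 1) (hyk : y k = 0) (ξ : E) (n0 : 0 ≤ n) (n1 : n ≤ 1)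
    (hn : ∀ l, (if l = k then ρ / M else ρ) * fr e l ξ * n ≤ 2) :
    n ^ 2 * ‖ch ξ (vec e fun l => 5 * ρ * y l) -
        if fr e k ξ < M * (τ / (24 * d * ρ)) then sa (e l₀) ρ ξ else 0‖ ≤
      τ + 2 * ∑ l, ((if fr e l ξ ∈ Icc (τ / (24 * d * ρ)) (8 / (τ ^ 2 * ρ ^ 2)) then 1 else 0) +
        if fr e l ξ ∈ Icc (M * (τ / (24 * d * ρ))) (M * (8 / (τ ^ 2 * ρ ^ 2))) then (1 : ℝ)
        else 0) := by
  have hd : (1 : ℝ) ≤ d := Nat.one_le_cast.2 k.pos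
  have e1 : d * ρ * (τ / (24 * d * ρ)) = τ / 24 := by field_simp
  have e2 : τ ^ 2 * ρ ^ 2 * (8 / (τ ^ 2 * ρ ^ 2)) = 8 := by field_simp
  have p1 : 0 < τ / (24 * d * ρ) := by positivity
  generalize τ / (24 * d * ρ) = a₁ at *
  generalize 8 / (τ ^ 2 * ρ ^ 2) = a₂ at *
  set N := ‖ch ξ (vec e fun l => 5 * ρ * y l) -
    if fr e k ξ < M * a₁ then sa (e l₀) ρ ξ else 0‖ with hN
  have N0 : 0 ≤ N := norm_nonneg _
  have N2 : N ≤ 2 := by
    refine (norm_sub_le _ _).trans ?_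
    have := sa_norm (e l₀) hρ ξ
    rw [ch_norm]
    split_ifs
    · linarith
    · rw [norm_zero]
      linarith
  have n2 : n ^ 2 ≤ n := by nlinarith
  have t0 : ∀ l, (0 : ℝ) ≤ (if fr e l ξ ∈ Icc a₁ a₂ then 1 else 0) +
      if fr e l ξ ∈ Icc (M * a₁) (M * a₂) then (1 : ℝ) else 0 := fun l => by positivity
  have s0 := Finset.sum_nonneg fun l (_ : l ∈ Finset.univ) => t0 l
  by_cases c1 : ∃ l, fr e l ξ ∈ Icc a₁ a₂ ∨ fr e l ξ ∈ Icc (M * a₁) (M * a₂)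
  · obtain ⟨l, hl⟩ := c1
    have h1 := Finset.single_le_sum (fun l (_ : l ∈ Finset.univ) => t0 l) (Finset.mem_univ l)
    have h2 : (1 : ℝ) ≤ (if fr e l ξ ∈ Icc a₁ a₂ then 1 else 0) +
        if fr e l ξ ∈ Icc (M * a₁) (M * a₂) then (1 : ℝ) else 0 := by
      rcases hl with hl | hl
      · rw [if_pos hl]
        exact le_add_of_nonneg_right (by positivity)
      · rw [if_pos hl]
        exact le_add_of_nonneg_left (by positivity)
    have h3 := mul_le_mul (n2.trans n1) N2 N0 zero_le_one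
    linarith
  refine le_trans ?_ (le_add_of_nonneg_right (mul_nonneg zero_le_two s0))
  push Not at c1
  by_cases c2 : ∃ l, ρ * a₂ ≤ (if l = k then ρ / M else ρ) * fr e l ξ
  · obtain ⟨l, hl⟩ := c2
    have h1 := (mul_le_mul_of_nonneg_right hl n0).trans (hn l)
    have h2 := mul_le_mul_of_nonneg_left h1 (by positivity : 0 ≤ τ ^ 2 * ρ)
    have h3 : τ ^ 2 * ρ * (ρ * a₂ * n) = 8 * n := by rw [← e2]; ring
    have h4 := mul_le_mul n2 N2 N0 n0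
    have h5 : τ ^ 2 * ρ ≤ τ * 1 := mul_le_mul (by nlinarith) (by linarith) hρ.le hτ.le
    linarith
  push Not at c2
  have hk1 : fr e k ξ < M * a₁ := by
    have h1 := c2 k
    rw [if_pos rfl, div_mul_eq_mul_div, div_lt_iff₀ hM, mul_assoc] at h1
    have h2 := lt_of_mul_lt_mul_left h1 hρ.le
    exact lt_of_not_ge fun h => (c1 k).2 ⟨h, by linarith⟩
  have hl1 : ∀ l, l ≠ k → fr e l ξ ≤ a₁ := fun l hl => by
    have h1 := c2 l
    rw [if_neg hl] at h1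
    exact le_of_not_ge fun h => (c1 l).1 ⟨h, (lt_of_mul_lt_mul_left h1 hρ.le).le⟩
  have h1 : N ≤ ‖ch ξ (vec e fun l => 5 * ρ * y l) - 1‖ + ‖sa (e l₀) ρ ξ - 1‖ := by
    rw [hN, if_pos hk1, norm_sub_rev (sa _ _ _)]
    exact norm_sub_le_norm_sub_add_norm_sub _ _ _
  have h2 := (sa_one (e l₀) hρ ξ).trans (mul_le_mul_of_nonneg_left (hl1 l₀ hk.symm) hρ.le)
  have h3 := (t12_ch e (fun l => 5 * ρ * y l) ξ).trans
    (Finset.sum_le_card_nsmul Finset.univ _ (5 * ρ * a₁) fun l _ => by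
      by_cases hl : l = k
      · rw [hl, hyk, mul_zero, abs_zero, zero_mul]
        positivity
      · rw [abs_mul, abs_of_pos (by positivity : 0 < 5 * ρ)]
        exact mul_le_mul (mul_le_of_le_one_right (by positivity) (hy l)) (hl1 l hl)
          (abs_nonneg _) (by positivity))
  rw [Finset.card_univ, Fintype.card_fin, nsmul_eq_mul] at h3
  have h4 := mul_le_mul_of_nonneg_right hd (mul_pos hρ p1).le
  have h5 := mul_le_mul_of_nonneg_right (n2.trans n1) N0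
  linarith

/-- `key_lo` and `key_mult` integrated against `W`. -/
theorem key (e : OrthonormalBasis (Fin d) ℝ E) (W : E → ℝ) (hW : Integrable W)
    (hW0 : ∀ ξ, 0 ≤ W ξ) (F : Set E) (hz : ∀ v ∈ F, ∫ ξ, (W ξ : ℂ) * ch ξ v = 0)
    {M ρ ρ₀ θ τ c : ℝ} (hM : 0 < M) (hA : Arcs e (1 / M) ρ₀ θ F) (h0 : ρ₀ ≤ ρ) (hρ : 0 < ρ)
    (hρ1 : ρ ≤ 1 / 10) (hτ : 0 < τ) (hτ1 : τ ≤ 1) (hθ : 4 * θ ≤ 1 / M * (τ * ρ) ^ 2)
    {k l₀ : Fin d} (hk : k ≠ l₀) {μ : Measure E} (hμ : Win e (ρ / M) ρ k μ) (y : Fin d → ℝ)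
    (hy : ∀ l, |y l| ≤ 1) (hyk : y k = 0) (hc : |c * ρ - ∑ l, y l ^ 2| ≤ ρ) :
    ‖∫ ξ, (W ξ : ℂ) * ch ξ (vec e y + (1 - c * (ρ / M)) • e k) *
        ((‖∫ q, ch ξ q ∂μ‖ ^ 2 : ℝ) : ℂ)‖ ≤
      3 * τ * (∫ ξ, W ξ) + 3 * bad e W M (τ / (24 * d * ρ)) (8 / (τ ^ 2 * ρ ^ 2)) := by
  have h1 := key_lo e W hW hW0 F hz hM hA h0 hρ hρ1 hτ hτ1 hθ hk hμ y hy hyk hc
  have := hμ.prob
  have n1 : ∀ ξ : E, ‖∫ q, ch ξ q ∂μ‖ ≤ 1 := fun ξ => by
    simpa using norm_integral_le_of_norm_le_const (μ := μ) (f := fun q => ch ξ q) (C := 1)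
      (Filter.Eventually.of_forall fun q => (ch_norm ξ q).le)
  have h2 := fun ξ => key_mult e hM hρ hρ1 hτ hτ1 hk y hy hyk ξ (norm_nonneg _) (n1 ξ) (hμ.dec ξ)
  generalize τ / (24 * d * ρ) = a₁ at *
  generalize 8 / (τ ^ 2 * ρ ^ 2) = a₂ at *
  have m1 : AEStronglyMeasurable (fun ξ : E => ((‖∫ q, ch ξ q ∂μ‖ ^ 2 : ℝ) : ℂ)) volume :=
    Complex.continuous_ofReal.comp_aestronglyMeasurable
      (((ch_cont (E := E)).stronglyMeasurable.integral_prod_right').norm.pow 2).aestronglyMeasurable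
  have b1 : ∀ᵐ ξ : E, ‖((‖∫ q, ch ξ q ∂μ‖ ^ 2 : ℝ) : ℂ)‖ ≤ 1 := .of_forall fun ξ => by
    rw [Complex.norm_real, norm_pow, norm_norm]
    exact pow_le_one₀ (norm_nonneg _) (n1 ξ)
  have m2 : ∀ v : E, AEStronglyMeasurable (fun ξ : E => ch ξ v) volume := fun v =>
    (ch_cont.comp (Continuous.prodMk_left v)).aestronglyMeasurable
  have b2 : ∀ v : E, ∀ᵐ ξ : E, ‖ch ξ v‖ ≤ 1 := fun v => .of_forall fun ξ => (ch_norm ξ v).le
  have ms : ∀ l a b, MeasurableSet {ξ | fr e l ξ ∈ Icc a b} := fun l a b =>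
    (fr_cont e l).measurable measurableSet_Icc
  have i0 : Integrable fun ξ => (W ξ : ℂ) := hW.ofReal
  have i1 := (i0.mul_bdd (m2 (vec e y + (1 - c * (ρ / M)) • e k)) (b2 _)).mul_bdd m1 b1
  have i2 := ((i0.mul_bdd (g := fun ξ => if fr e k ξ < M * a₁ then sa (e l₀) ρ ξ else 0) (c := 1)
    (Measurable.ite (measurableSet_lt (fr_cont e k).measurable measurable_const)
      (sa_cont _ _).measurable measurable_const).aestronglyMeasurable (.of_forall fun ξ => by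
        split_ifs
        · exact sa_norm _ hρ ξ
        · simp)).mul_bdd (m2 (vec e (fun l => (1 - 5 * ρ) * y l) + (1 - c * (ρ / M)) • e k))
          (b2 _)).mul_bdd m1 b1
  have i3 : ∀ l, Integrable fun ξ => {ξ | fr e l ξ ∈ Icc a₁ a₂}.indicator W ξ +
      {ξ | fr e l ξ ∈ Icc (M * a₁) (M * a₂)}.indicator W ξ := fun l =>
    (hW.indicator (ms l _ _)).add (hW.indicator (ms l _ _))
  have i4 := integrable_finsetSum Finset.univ fun l _ => i3 l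
  have hv : vec e y = vec e (fun l => 5 * ρ * y l) + vec e fun l => (1 - 5 * ρ) * y l := by
    simp only [vec, ← Finset.sum_add_distrib, ← add_smul]
    exact Finset.sum_congr rfl fun l _ => by congr 1; ring
  have h3 := norm_integral_le_of_norm_le ((hW.const_mul τ).add (i4.const_mul 2))
    (f := fun ξ => (W ξ : ℂ) * ch ξ (vec e y + (1 - c * (ρ / M)) • e k) *
      ((‖∫ q, ch ξ q ∂μ‖ ^ 2 : ℝ) : ℂ) - (W ξ : ℂ) *
        (if fr e k ξ < M * a₁ then sa (e l₀) ρ ξ else 0) *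
        ch ξ (vec e (fun l => (1 - 5 * ρ) * y l) + (1 - c * (ρ / M)) • e k) *
          ((‖∫ q, ch ξ q ∂μ‖ ^ 2 : ℝ) : ℂ)) (.of_forall fun ξ => by
      rw [hv, add_assoc, ch_add, ← mul_assoc, ← sub_mul, ← sub_mul, ← mul_sub, norm_mul, norm_mul,
        norm_mul, ch_norm, mul_one, Complex.norm_real, Complex.norm_real, norm_pow, norm_norm,
        Real.norm_of_nonneg (hW0 ξ), mul_assoc, mul_comm _ (_ ^ 2)]
      refine (mul_le_mul_of_nonneg_left (h2 ξ) (hW0 ξ)).trans (le_of_eq ?_)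
      rw [mul_add, mul_left_comm, Finset.mul_sum, mul_comm]
      simp only [Pi.add_apply, indicator_apply, mem_ofPred_eq, mul_add, mul_ite, mul_one,
        mul_zero])
  simp only [Pi.add_apply] at h3
  rw [integral_sub i1 i2, integral_add (hW.const_mul τ) (i4.const_mul 2), integral_const_mul,
    integral_const_mul, integral_finsetSum _ fun l _ => i3 l] at h3
  have h4 : ∀ l, ∫ ξ, ({ξ | fr e l ξ ∈ Icc a₁ a₂}.indicator W ξ +
      {ξ | fr e l ξ ∈ Icc (M * a₁) (M * a₂)}.indicator W ξ) =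
      (∫ ξ in {ξ | fr e l ξ ∈ Icc a₁ a₂}, W ξ) +
        ∫ ξ in {ξ | fr e l ξ ∈ Icc (M * a₁) (M * a₂)}, W ξ := fun l => by
    rw [integral_add (hW.indicator (ms l _ _)) (hW.indicator (ms l _ _)),
      integral_indicator (ms l _ _), integral_indicator (ms l _ _)]
  rw [Finset.sum_congr rfl fun l _ => h4 l] at h3
  have h5 : ∀ l a b, 0 ≤ ∫ ξ in {ξ | fr e l ξ ∈ Icc a b}, W ξ := fun l a b =>
    integral_nonneg fun ξ => hW0 ξ
  have h6 := Finset.single_le_sum (fun l (_ : l ∈ Finset.univ) =>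
    add_nonneg (h5 l a₁ a₂) (h5 l (M * a₁) (M * a₂))) (Finset.mem_univ k)
  have h7 := h5 k a₁ a₂
  refine (norm_le_norm_add_norm_sub' _ _).trans ((add_le_add h1 h3).trans ?_)
  rw [bad]
  linarith

end Pool.Agent.Lib.MP_eb34a4_co.Cb
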