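import Pool.Agent.Lib.MP_eb34a4_co.Cb.Geo
import Pool.Agent.Lib.MP_eb34a4_co.MG.Main

/-! A periodic set of cubes avoids the boundary of every body near the cube. -/

set_option autoImplicit false

open MeasureTheory Set Metric
open scoped RealInnerProductSpace

namespace Pool.Agent.Lib.MP_eb34a4_co.Cb

theorem low_int {p : ℕ} {n n' : ℤ} (h : n % (2 * p + 1) < p) (h' : n' % (2 * p + 1) < p) :
    |n - n'| + 1 ≤ p ∨ (p : ℤ) + 2 ≤ |n - n'| := by
  have hq : (0 : ℤ) < 2 * p + 1 := by positivity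
  have e := Int.emod_add_mul_ediv n (2 * p + 1)
  have e' := Int.emod_add_mul_ediv n' (2 * p + 1)
  have r := Int.emod_nonneg n hq.ne'
  have r' := Int.emod_nonneg n' hq.ne'
  rcases lt_trichotomy (n / (2 * p + 1)) (n' / (2 * p + 1)) with c | c | c
  · have := mul_le_mul_of_nonneg_left (Int.add_one_le_iff.2 c) hq.le
    exact Or.inr (le_abs.2 (Or.inr (by linarith)))
  · rw [c] at e
    exact Or.inl (by rcases abs_cases (n - n') with a | a <;> linarith [a.1])
  · have := mul_le_mul_of_nonneg_left (Int.add_one_le_iff.2 c) hq.le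
    exact Or.inr (le_abs.2 (Or.inl (by linarith)))

theorem low_real {p : ℕ} {x y : ℝ} (h : ⌊x⌋ % (2 * p + 1) < p) (h' : ⌊y⌋ % (2 * p + 1) < p) :
    |x - y| < p ∨ (p : ℝ) + 1 < |x - y| := by
  have a1 := Int.floor_le x
  have a2 := Int.lt_floor_add_one x
  have a3 := Int.floor_le y
  have a4 := Int.lt_floor_add_one y
  refine (low_int h h').imp (fun c => ?_) fun c => ?_
  · have c' : |(⌊x⌋ : ℝ) - ⌊y⌋| + 1 ≤ p := by exact_mod_cast c
    have := le_abs_self ((⌊x⌋ : ℝ) - ⌊y⌋)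
    have := neg_abs_le ((⌊x⌋ : ℝ) - ⌊y⌋)
    exact abs_lt.2 ⟨by linarith, by linarith⟩
  · have c' : (p : ℝ) + 2 ≤ |(⌊x⌋ : ℝ) - ⌊y⌋| := by exact_mod_cast c
    exact lt_abs.2 ((le_abs.1 c').imp (fun _ => by linarith) fun _ => by linarith)

theorem low_count (p : ℕ) (n : ℤ) : p ≤ (Finset.univ.filter fun m : Fin (2 * p + 1) =>
    (n + (m : ℕ)) % (2 * p + 1) < p).card := by
  have hq : (0 : ℤ) < 2 * p + 1 := by positivity
  have key : ∀ j : Fin p, ∃ m : Fin (2 * p + 1), (n + (m : ℕ)) % (2 * p + 1) = (j : ℕ) := fun j => by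
    have r := Int.emod_nonneg ((j : ℕ) - n) hq.ne'
    have r' := Int.emod_lt_of_pos ((j : ℕ) - n) hq
    refine ⟨⟨(((j : ℕ) - n) % (2 * p + 1)).toNat, by omega⟩, ?_⟩
    rw [Int.toNat_of_nonneg r, Int.add_emod_emod, add_sub_cancel]
    exact Int.emod_eq_of_lt (by positivity) (by omega)
  choose f hf using key
  refine (Fintype.card_fin p).ge.trans (Finset.card_le_card_of_injOn f (fun j _ => ?_)
    fun i _ j _ e => Fin.ext ?_)
  · simp only [Finset.coe_filter, Finset.mem_univ, true_and, mem_ofPred_eq, hf]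
    exact_mod_cast j.2
  · exact_mod_cast (hf i).symm.trans (e ▸ hf j)

variable {E : Type} [NormedAddCommGroup E] [InnerProductSpace ℝ E] [FiniteDimensional ℝ E]
  [MeasurableSpace E] [BorelSpace E] {d : ℕ}

/-- A periodic union of cubes. -/
def per (e : OrthonormalBasis (Fin d) ℝ E) (p : ℕ) : Set E :=
  {x | ∀ l, ⌊(2 * p + 1) / 2 * ⟪x, e l⟫⌋ % (2 * p + 1) < p}

omit [FiniteDimensional ℝ E] in
theorem per_meas (e : OrthonormalBasis (Fin d) ℝ E) (p : ℕ) : MeasurableSet (per e p) := by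
  have h : per e p = ⋂ l, (fun x : E => ⌊(2 * (p : ℝ) + 1) / 2 * ⟪x, e l⟫⌋) ⁻¹'
      {n | n % (2 * p + 1) < p} := by
    ext x
    simp [per]
  rw [h]
  exact MeasurableSet.iInter fun l =>
    (Measurable.floor (Continuous.measurable (by fun_prop))) MeasurableSet.of_discrete

theorem per_vol (e : OrthonormalBasis (Fin d) ℝ E) (p : ℕ) : ∃ L : ℝ, ∀ R : ℝ,
    (p : ℝ) ^ d * (volume (ball (0 : E) R)).toReal ≤
      (2 * p + 1) ^ d * (volume (per e p ∩ ball 0 (R + L))).toReal := by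
  classical
  let u : (Fin d → Fin (2 * p + 1)) → E := fun m => vec e fun l => 2 / (2 * p + 1) * (m l : ℕ)
  refine ⟨∑ m, ‖u m‖, fun R => ?_⟩
  have hq : (0 : ℝ) < 2 * p + 1 := by positivity
  have hS : ∀ m, MeasurableSet ((fun x => x + u m) ⁻¹' per e p) := fun m =>
    measurable_add_const _ (per_meas e p)
  have h1 : ∀ x : E, (p : ENNReal) ^ d ≤
      ∑ m, ((fun x => x + u m) ⁻¹' per e p).indicator (1 : E → ENNReal) x := fun x => by
    have h2 : ∀ m l, ⌊(2 * (p : ℝ) + 1) / 2 * ⟪x + u m, e l⟫⌋ =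
        ⌊(2 * (p : ℝ) + 1) / 2 * ⟪x, e l⟫⌋ + (m l : ℕ) := fun m l => by
      rw [← Int.floor_add_natCast, inner_add_left, inner_vec]
      congr 1
      field_simp
    simp only [indicator_apply, mem_preimage, per, mem_ofPred_eq, h2, Pi.one_apply,
      Finset.sum_boole]
    have h3 := Fintype.card_piFinset fun l => Finset.univ.filter fun m : Fin (2 * p + 1) =>
      (⌊(2 * (p : ℝ) + 1) / 2 * ⟪x, e l⟫⌋ + (m : ℕ)) % (2 * p + 1) < p
    have h4 := Finset.prod_le_prod' fun l (_ : l ∈ Finset.univ) =>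
      low_count p ⌊(2 * (p : ℝ) + 1) / 2 * ⟪x, e l⟫⌋
    rw [← h3, Finset.prod_const, Finset.card_univ, Fintype.card_fin] at h4
    refine Nat.cast_pow (α := ENNReal) p d ▸ Nat.cast_le.2 (h4.trans (Finset.card_le_card ?_))
    intro m hm
    simpa using hm
  have h2 : (p : ENNReal) ^ d * volume (ball (0 : E) R) ≤
      ∑ _m : Fin d → Fin (2 * p + 1), volume (per e p ∩ ball 0 (R + ∑ m, ‖u m‖)) := by
    rw [← setLIntegral_const]
    refine (lintegral_mono h1).trans ?_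
    rw [lintegral_finsetSum _ fun m _ => measurable_one.indicator (hS m)]
    refine Finset.sum_le_sum fun m _ => ?_
    rw [lintegral_indicator_one (hS m), Measure.restrict_apply (hS m),
      ← measure_preimage_add_right volume (u m) (per e p ∩ _)]
    refine measure_mono fun x hx => ⟨hx.1, mem_ball_zero_iff.2 ?_⟩
    exact (norm_add_le _ _).trans_lt (add_lt_add_of_lt_of_le (mem_ball_zero_iff.1 hx.2)
      (Finset.single_le_sum (f := fun m => ‖u m‖) (fun _ _ => norm_nonneg _) (Finset.mem_univ m)))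
  have hfin : volume (per e p ∩ ball (0 : E) (R + ∑ m, ‖u m‖)) ≠ ⊤ :=
    ((measure_mono inter_subset_right).trans_lt measure_ball_lt_top).ne
  have h3 := ENNReal.toReal_mono (ENNReal.sum_ne_top.2 fun _ _ => hfin) h2
  rw [ENNReal.toReal_sum fun _ _ => hfin] at h3
  simpa using h3

omit [FiniteDimensional ℝ E] [MeasurableSpace E] [BorelSpace E] in
theorem per_avoid (e : OrthonormalBasis (Fin d) ℝ E) (p : ℕ) {lam δ : ℝ} (hlam : 0 < lam)
    (hδ : 0 < δ) (h : (2 * δ + lam * d) * (2 * p + 1) ≤ 1) {K K₀ : Body E}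
    (h0 : (K₀.1 : Set E) = cc e lam) (hK : dist K K₀ < δ) {x y : E} (hx : x ∈ per e p)
    (hy : y ∈ per e p) : x - y ∉ frontier (K.1 : Set E) := by
  have hq : (0 : ℝ) < 2 * p + 1 := by positivity
  obtain ⟨n1, n2⟩ := MG.baire_near (Subtype.dist_eq K K₀ ▸ hK)
  rw [h0] at n1 n2
  have hc : ∀ (z : E) l, |⟪z, e l⟫| ≤ ‖z‖ := fun z l => by
    simpa [e.norm_eq_one] using abs_real_inner_le_norm z (e l)
  have h1 : ∀ l, (2 * p + 1) * |⟪x - y, e l⟫| < 2 * p ∨
      2 * p + 2 < (2 * p + 1) * |⟪x - y, e l⟫| := fun l => by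
    have := low_real (hx l) (hy l)
    rw [← mul_sub, ← inner_sub_left, abs_mul, abs_of_pos (half_pos hq)] at this
    exact this.imp (fun _ => by linarith) fun _ => by linarith
  have hd : 0 ≤ lam * d := by positivity
  intro hf
  by_cases c : ∀ l, (2 * p + 1) * |⟪x - y, e l⟫| < 2 * p
  · refine hf.2 (mem_interior.2 ⟨ball (x - y) δ, ball_subset_of_near (K.1 : Set E) (cc e lam)
      K.1.nonempty K.1.isCompact K.2.1 δ hδ (fun z hz => ?_) _ fun z hz => ?_, isOpen_ball,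
      mem_ball_self hδ⟩)
    · obtain ⟨k, hk, h⟩ := n2 z hz
      exact ⟨k, hk, by rwa [dist_comm]⟩
    · have h2 : ∀ l, |⟪z, e l⟫| + lam * d ≤ 1 := fun l => by
        have a1 := hc (z - (x - y)) l
        have a2 := abs_sub_abs_le_abs_sub ⟪z, e l⟫ ⟪x - y, e l⟫
        rw [← inner_sub_left] at a2
        rw [mem_ball_iff_norm] at hz
        refine le_of_mul_le_mul_left ?_ hq
        nlinarith [c l]
      intro k
      have h3 := Finset.sum_le_card_nsmul (Finset.univ.erase k) (fun l => ⟪z, e l⟫ ^ 2) 1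
        fun l _ => (sq_le_one_iff_abs_le_one _).2 (by linarith [h2 l])
      have h4 : ((Finset.univ.erase k).card : ℝ) ≤ d := by
        exact_mod_cast (Finset.card_le_univ _).trans (Fintype.card_fin d).le
      rw [nsmul_eq_mul, mul_one] at h3
      linarith [h2 k, mul_le_mul_of_nonneg_left (h3.trans h4) hlam.le]
  · obtain ⟨l, hl⟩ := not_forall.1 c
    obtain ⟨z, hz, h2⟩ := n1 _ (K.1.isCompact.isClosed.frontier_subset hf)
    have a0 := (h1 l).resolve_left hl
    have a1 := hc (x - y - z) l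
    have a2 := abs_sub_abs_le_abs_sub ⟪x - y, e l⟫ ⟪z, e l⟫
    have a3 := hz l
    have a4 : 0 ≤ lam * ∑ j ∈ Finset.univ.erase l, ⟪z, e j⟫ ^ 2 :=
      mul_nonneg hlam.le (Finset.sum_nonneg fun _ _ => sq_nonneg _)
    rw [← inner_sub_left] at a2
    rw [dist_eq_norm] at h2
    nlinarith

theorem low (e : OrthonormalBasis (Fin d) ℝ E) {ε : ℝ} (hε : 0 < ε) : ∃ p : ℕ,
    ∀ᶠ R : ℝ in Filter.atTop, (1 / 2 ^ d - ε) * (volume (ball (0 : E) R)).toReal ≤
      (volume (per e p ∩ ball 0 R)).toReal := by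
  obtain ⟨p, hp⟩ := exists_nat_gt (d / ε)
  rw [div_lt_iff₀ hε] at hp
  obtain ⟨L, hL⟩ := per_vol e p
  have hq : (0 : ℝ) < 2 * p + 1 := by positivity
  have h1 : 1 / 2 ^ d - ε / 2 ≤ ((p : ℝ) / (2 * p + 1)) ^ d := by
    have e1 : (p : ℝ) / (2 * p + 1) = 1 / 2 * (1 + -(1 / (2 * p + 1))) := by
      field_simp
      ring
    have b1 : 1 / (2 * (p : ℝ) + 1) ≤ 1 := (div_le_one hq).2 (by linarith [p.cast_nonneg (α := ℝ)])
    have b2 := one_add_mul_le_pow (a := -(1 / (2 * (p : ℝ) + 1))) (by linarith) d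
    have b3 : d * (1 / (2 * (p : ℝ) + 1)) ≤ ε / 2 := by
      rw [mul_one_div, div_le_iff₀ hq]
      linarith
    have b4 : (1 / 2 : ℝ) ^ d ≤ 1 := pow_le_one₀ (by norm_num) (by norm_num)
    have b5 : (0 : ℝ) ≤ (1 / 2) ^ d := by positivity
    have b6 : 0 ≤ d * (1 / (2 * (p : ℝ) + 1)) := by positivity
    rw [e1, mul_pow, ← one_div_pow]
    nlinarith [mul_le_mul_of_nonneg_left b2 b5]
  refine ⟨p, ?_⟩
  filter_upwards [(Filter.tendsto_atTop_add_const_right _ (-L) Filter.tendsto_id).eventually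
    (MG.main_ratio (E := E) L (1 + ε / 2) (by linarith))] with R hR
  have h2 := hL (R + -L)
  simp only [id, neg_add_cancel_right] at hR h2
  rw [← div_le_iff₀' (by positivity), mul_div_right_comm, ← div_pow] at h2
  have h3 : (0 : ℝ) ≤ (volume (ball (0 : E) (R + -L))).toReal := ENNReal.toReal_nonneg
  have h4 : (0 : ℝ) ≤ (volume (ball (0 : E) R)).toReal := ENNReal.toReal_nonneg
  have h5 : (1 : ℝ) / 2 ^ d ≤ 1 := (div_le_one (by positivity)).2 (one_le_pow₀ one_le_two)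
  rcases le_total (1 / 2 ^ d - ε : ℝ) 0 with c | c
  · exact (mul_nonpos_of_nonpos_of_nonneg c h4).trans ENNReal.toReal_nonneg
  · have h6 : (1 / 2 ^ d - ε : ℝ) * (1 + ε / 2) ≤ 1 / 2 ^ d - ε / 2 := by nlinarith
    refine (mul_le_mul_of_nonneg_left hR c).trans (le_trans ?_ h2)
    rw [← mul_assoc]
    exact mul_le_mul_of_nonneg_right (h6.trans h1) h3

end Pool.Agent.Lib.MP_eb34a4_co.Cb
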