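import Pool.Agent.Lib.MP_eb34a4_co.Cb.Defs

/-! A good scale. -/

set_option autoImplicit false

open MeasureTheory Set
open scoped RealInnerProductSpace

namespace Pool.Agent.Lib.MP_eb34a4_co.Cb

variable {E : Type} [NormedAddCommGroup E] [InnerProductSpace ℝ E] [FiniteDimensional ℝ E]
  [MeasurableSpace E] [BorelSpace E] {d : ℕ}

theorem t13_sum (W : E → ℝ) (hW : Integrable W) (hW0 : ∀ ξ, 0 ≤ W ξ) (f : E → ℝ)
    (hf : Continuous f) (b₁ b₂ : ℕ → ℝ) (h : ∀ i j, i < j → b₂ i < b₁ j) (J : ℕ) :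
    ∑ j ∈ Finset.range J, ∫ ξ in {ξ | f ξ ∈ Icc (b₁ j) (b₂ j)}, W ξ ≤ ∫ ξ, W ξ := by
  have hm : ∀ j ∈ Finset.range J, MeasurableSet {ξ | f ξ ∈ Icc (b₁ j) (b₂ j)} := fun j _ =>
    hf.measurable measurableSet_Icc
  have hd : Set.Pairwise (↑(Finset.range J) : Set ℕ)
      (Function.onFun Disjoint fun j => {ξ | f ξ ∈ Icc (b₁ j) (b₂ j)}) := by
    intro i _ j _ hij
    rw [Function.onFun, Set.disjoint_left]
    intro ξ hi hj
    rcases lt_or_gt_of_ne hij with hl | hl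
    · have := h i j hl
      linarith [hi.2, hj.1]
    · have := h j i hl
      linarith [hi.1, hj.2]
  rw [← integral_biUnion_finset _ hm hd fun j _ => hW.integrableOn]
  exact setIntegral_le_integral hW (Filter.Eventually.of_forall hW0)

/-- For each `l` the sets are pairwise disjoint in `j`, so the sum of `bad` over `j < J` is at
most `2 * d * ∫ W` (`integral_biUnion_finset`, `setIntegral_le_integral`). -/
theorem ph (e : OrthonormalBasis (Fin d) ℝ E) (W : E → ℝ) (hW : Integrable W)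
    (hW0 : ∀ ξ, 0 ≤ W ξ) {M : ℝ} (hM : 0 < M) (a₁ a₂ : ℕ → ℝ)
    (h : ∀ i j, i < j → a₂ i < a₁ j) {J : ℕ} (hJ : 0 < J) :
    ∃ j < J, bad e W M (a₁ j) (a₂ j) ≤ 2 * d / J * ∫ ξ, W ξ := by
  have hJ' : (0 : ℝ) < J := by exact_mod_cast hJ
  have key : ∑ j ∈ Finset.range J, bad e W M (a₁ j) (a₂ j) ≤
      ∑ _j ∈ Finset.range J, 2 * (d : ℝ) / J * ∫ ξ, W ξ := by
    unfold bad
    rw [Finset.sum_comm]
    have h1 : ∀ l ∈ (Finset.univ : Finset (Fin d)), ∑ j ∈ Finset.range J,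
        ((∫ ξ in {ξ | fr e l ξ ∈ Icc (a₁ j) (a₂ j)}, W ξ) +
          ∫ ξ in {ξ | fr e l ξ ∈ Icc (M * a₁ j) (M * a₂ j)}, W ξ) ≤ 2 * ∫ ξ, W ξ := by
      intro l _
      rw [Finset.sum_add_distrib]
      have p1 := t13_sum W hW hW0 (fr e l) (fr_cont e l) a₁ a₂ h J
      have p2 := t13_sum W hW hW0 (fr e l) (fr_cont e l) (fun j => M * a₁ j)
        (fun j => M * a₂ j) (fun i j hij => mul_lt_mul_of_pos_left (h i j hij) hM) J
      linarith
    refine (Finset.sum_le_sum h1).trans (le_of_eq ?_)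
    simp only [Finset.sum_const, Finset.card_univ, Fintype.card_fin, Finset.card_range,
      nsmul_eq_mul]
    field_simp
  obtain ⟨j, hj, hle⟩ := Finset.exists_le_of_sum_le
    (Finset.nonempty_range_iff.mpr hJ.ne') key
  exact ⟨j, Finset.mem_range.mp hj, hle⟩

/-- `ρ 0 = 1 / 10`, `ρ (j + 1) = τ ^ 3 * ρ j ^ 2 / (200 * d)`. -/
theorem scales {d : ℕ} (hd : 0 < d) {τ : ℝ} (hτ : 0 < τ) (hτ1 : τ ≤ 1) :
    ∃ ρ : ℕ → ℝ, (∀ j, 0 < ρ j ∧ ρ j ≤ 1 / 10) ∧ Antitone ρ ∧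
      ∀ i j, i < j → 8 / (τ ^ 2 * ρ i ^ 2) < τ / (24 * d * ρ j) := by
  have hd1 : (1 : ℝ) ≤ d := by exact_mod_cast hd
  have hd0 : (0 : ℝ) < d := by linarith
  let ρ : ℕ → ℝ := fun n => Nat.rec (1 / 10) (fun _ r => τ ^ 3 * r ^ 2 / (200 * d)) n
  have hs : ∀ n, ρ (n + 1) = τ ^ 3 * ρ n ^ 2 / (200 * d) := fun n => rfl
  have h3 : τ ^ 3 ≤ 1 := pow_le_one₀ hτ.le hτ1
  have hstep : ∀ r : ℝ, 0 < r → r ≤ 1 / 10 → τ ^ 3 * r ^ 2 / (200 * d) ≤ r := by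
    intro r hr hr1
    rw [div_le_iff₀ (by positivity)]
    have : τ ^ 3 * r ^ 2 ≤ r ^ 2 := by nlinarith [sq_nonneg r]
    nlinarith
  have hb : ∀ j, 0 < ρ j ∧ ρ j ≤ 1 / 10 := by
    intro j
    induction j with
    | zero => exact ⟨by norm_num [ρ], le_rfl⟩
    | succ n ih =>
      rw [hs]
      exact ⟨by have := ih.1; positivity, (hstep _ ih.1 ih.2).trans ih.2⟩
  have ha : Antitone ρ := antitone_nat_of_succ_le fun n => by
    rw [hs]
    exact hstep _ (hb n).1 (hb n).2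
  refine ⟨ρ, hb, ha, fun i j hij => ?_⟩
  have hi := (hb i).1
  have hj := (hb j).1
  have h1 : ρ j ≤ τ ^ 3 * ρ i ^ 2 / (200 * d) := (hs i) ▸ ha (Nat.succ_le_of_lt hij)
  rw [le_div_iff₀ (by positivity)] at h1
  rw [div_lt_div_iff₀ (by positivity) (by positivity)]
  have h2 : 0 < ρ j * d := by positivity
  nlinarith

end Pool.Agent.Lib.MP_eb34a4_co.Cb
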