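import Pool.Agent.Lib.MP_eb34a4_co.Cb.Phys
import Pool.Agent.Lib.MP_eb34a4_co.Cb.Ph
import Pool.Agent.Lib.MP_eb34a4_co.Cb.KeyB
import Pool.Agent.Lib.MP_eb34a4_co.Cb.Low

/-! The density bound near the cube norm. -/

set_option autoImplicit false

open MeasureTheory Set Metric
open scoped RealInnerProductSpace

namespace Pool.Agent.Lib.MP_eb34a4_co.Cb

variable {E : Type} [NormedAddCommGroup E] [InnerProductSpace ℝ E] [FiniteDimensional ℝ E]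
  [MeasurableSpace E] [BorelSpace E] {d : ℕ}

omit [FiniteDimensional ℝ E] [MeasurableSpace E] [BorelSpace E] in
theorem vec_ext (e : OrthonormalBasis (Fin d) ℝ E) {x y : E} (h : ∀ l, ⟪x, e l⟫ = ⟪y, e l⟫) :
    x = y := by
  have h1 := norm_sq_eq e (x - y)
  simp only [inner_sub_left, h, sub_self, ne_eq, OfNat.ofNat_ne_zero, not_false_eq_true,
    zero_pow, Finset.sum_const_zero, pow_eq_zero_iff, norm_eq_zero] at h1
  exact sub_eq_zero.1 h1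

theorem step (e : OrthonormalBasis (Fin d) ℝ E) (hd : 2 ≤ d) (A : Set E) (hA : MeasurableSet A)
    {R : ℝ} (hR : A ⊆ ball 0 R) (W : E → ℝ) (hW : Integrable W) (hW0 : ∀ ξ, 0 ≤ W ξ)
    (hs : ∀ v, (((volume (A ∩ {x | x + v ∈ A})).toReal : ℝ) : ℂ) = ∫ ξ, (W ξ : ℂ) * ch ξ v)
    (F : Set E) (hz : ∀ v ∈ F, ∫ ξ, (W ξ : ℂ) * ch ξ v = 0) {M : ℕ} {ρ ρ₀ θ τ γ η : ℝ}
    (hM : 0 < M) (hF : Arcs e (1 / M) ρ₀ θ F) (h0 : ρ₀ ≤ ρ) (hρ : 0 < ρ) (hρ1 : ρ ≤ 1 / 10)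
    (hτ : 0 < τ) (hτ1 : τ ≤ 1) (hθ : 4 * θ ≤ 1 / M * (τ * ρ) ^ 2) (hγ : 0 < γ) (hη : 0 ≤ η)
    (hηM : d ≤ η * M * ρ) :
    2 ^ d * (volume A).toReal ≤ (1 + 2 ^ d * η + 2 ^ d * (d * γ)) *
      (volume (ball (0 : E) (R + 3 * d))).toReal + 2 ^ d * (d * 4 ^ d * ((3 * τ * (∫ ξ, W ξ) +
        3 * bad e W M (τ / (24 * d * ρ)) (8 / (τ ^ 2 * ρ ^ 2))) / γ ^ 2)) := by
  have hM' : (0 : ℝ) < M := Nat.cast_pos.2 hM
  have hfin : volume A ≠ ⊤ := ((measure_mono hR).trans_lt measure_ball_lt_top).ne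
  have hMs : (M : ℝ) * (ρ / M) = ρ := by field_simp
  let y : Fin d → (Fin d → Bool) → (Fin d → Bool) → Fin d → ℝ := fun k i i' l =>
    if l = k then 0 else (if i' l then 1 else 0) - (if i l then 1 else 0)
  have hy : ∀ k i i' l, |y k i i' l| ≤ 1 := fun k i i' l => by
    simp only [y]
    split_ifs <;> simp
  have hy2 : ∀ k i i', 0 ≤ ∑ l, y k i i' l ^ 2 ∧ ∑ l, y k i i' l ^ 2 ≤ d := fun k i i' =>
    ⟨Finset.sum_nonneg fun l _ => sq_nonneg _, by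
      simpa using Finset.sum_le_card_nsmul Finset.univ (fun l => y k i i' l ^ 2) 1
        fun l _ => (sq_le_one_iff_abs_le_one _).2 (hy k i i' l)⟩
  have hb : 0 ≤ bad e W M (τ / (24 * d * ρ)) (8 / (τ ^ 2 * ρ ^ 2)) :=
    Finset.sum_nonneg fun l _ => add_nonneg (integral_nonneg hW0) (integral_nonneg hW0)
  have hV : 0 ≤ ∫ ξ, W ξ := integral_nonneg hW0
  refine phys e A hA hR (div_pos hρ hM') hM (hMs.trans_le (by linarith)) hγ hη (by positivity)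
    (fun k i i' => ⌊(∑ l, y k i i' l ^ 2) / ρ⌋₊) (fun k i i' => ?_) fun k i i' hi hi' v hv => ?_
  · refine (Nat.floor_le (div_nonneg (hy2 k i i').1 hρ.le)).trans ?_
    rw [div_le_iff₀ hρ]
    exact (hy2 k i i').2.trans hηM
  obtain ⟨μ, hμ, hg⟩ := win e (div_pos hρ hM') hM k
  rw [hMs] at hμ
  have := hμ.prob
  obtain ⟨h1, h2⟩ := corr A hA hfin W hW hs μ _ (hg A hA) v
  refine ⟨h1, h2.trans ?_⟩
  obtain ⟨l₀, hl⟩ : ∃ l₀ : Fin d, k ≠ l₀ := by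
    have : Nontrivial (Fin d) := Fin.nontrivial_iff_two_le.2 hd
    obtain ⟨l, hl⟩ := exists_ne k
    exact ⟨l, hl.symm⟩
  have e1 : v = vec e (y k i i') + (1 - (⌊(∑ l, y k i i' l ^ 2) / ρ⌋₊ : ℝ) * (ρ / M)) • e k := by
    rw [hv]
    refine vec_ext e fun l => ?_
    simp only [inner_sub_left, inner_add_left, cor, inner_vec, real_inner_smul_left, y]
    by_cases h : l = k
    · subst h
      simp [hi, hi']
    · rw [e.inner_eq_zero (Ne.symm h), if_neg h]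
      ring
  rw [e1]
  refine key e W hW hW0 F hz hM' hF h0 hρ hρ1 hτ hτ1 hθ hl hμ _ (hy k i i') (if_pos rfl) ?_
  have f1 := Nat.floor_le (div_nonneg (hy2 k i i').1 hρ.le)
  have f2 := Nat.lt_floor_add_one ((∑ l, y k i i' l ^ 2) / ρ)
  rw [le_div_iff₀ hρ] at f1
  rw [div_lt_iff₀ hρ] at f2
  exact abs_le.2 ⟨by linarith, by linarith⟩

theorem main_open (e : OrthonormalBasis (Fin d) ℝ E) (hd : 2 ≤ d) (κ : ℝ) (hκ : 0 < κ) (β : ℝ)
    (hβ : 0 < β) : ∃ (K₀ : Body E) (δ lam : ℝ), 0 < δ ∧ 0 < lam ∧ 2 * δ + lam * d ≤ β ∧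
      (K₀.1 : Set E) = cc e lam ∧ ∀ K : Body E, dist K K₀ < δ → ∀ A : Set E,
      NullMeasurableSet A volume → (∀ x ∈ A, ∀ y ∈ A, x - y ∉ frontier (K.1 : Set E)) →
        ∀ R, A ⊆ ball 0 R → (2 ^ d - κ) * (volume A).toReal ≤
          (1 + κ) * (volume (ball (0 : E) (R + 3 * d))).toReal := by
  have hd0 : (0 : ℝ) < d := Nat.cast_pos.2 (by omega)
  obtain ⟨η, hη, hη1⟩ : ∃ η : ℝ, 0 < η ∧ 2 ^ d * η = κ / 2 :=
    ⟨κ / 2 / 2 ^ d, by positivity, by field_simp⟩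
  obtain ⟨γ, hγ, hγ1⟩ : ∃ γ : ℝ, 0 < γ ∧ 2 ^ d * (d * γ) = κ / 2 :=
    ⟨κ / 2 / 2 ^ d / d, by positivity, by field_simp⟩
  obtain ⟨D, hD, hD1⟩ : ∃ D : ℝ, 0 < D ∧ ∀ C : ℝ, 2 ^ d * (d * 4 ^ d * (C / γ ^ 2)) = D * C :=
    ⟨2 ^ d * (d * 4 ^ d / γ ^ 2), by positivity, fun C => by ring⟩
  obtain ⟨τ, hτ, hτ1, hτ2⟩ : ∃ τ : ℝ, 0 < τ ∧ τ ≤ 1 ∧ τ * (6 * D) ≤ κ :=
    ⟨min 1 (κ / (6 * D)), by positivity, min_le_left _ _,
      (le_div_iff₀ (by positivity)).1 (min_le_right _ _)⟩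
  obtain ⟨J, hJ⟩ := exists_nat_gt (12 * d * D / κ)
  have hJ0 : (0 : ℝ) < J := lt_trans (by positivity) hJ
  rw [div_lt_iff₀ hκ] at hJ
  obtain ⟨ρ, hρ, hanti, hsep⟩ := scales (d := d) (by omega) hτ hτ1
  have hρ0 := (hρ J).1
  obtain ⟨M, hM⟩ := exists_nat_gt (max (max (2 * d / ρ J) (d / (η * ρ J))) (2 * d / β))
  have hM1 := ((le_max_left _ _).trans (le_max_left _ _)).trans_lt hM
  have hM2 := ((le_max_right _ _).trans (le_max_left _ _)).trans_lt hM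
  have hM3 := (le_max_right _ _).trans_lt hM
  rw [div_lt_iff₀ hβ] at hM3
  have hM0 : (0 : ℝ) < M := lt_trans (by positivity) hM1
  rw [div_lt_iff₀ hρ0] at hM1
  rw [div_lt_iff₀ (by positivity)] at hM2
  obtain ⟨K₀, δ, hδ, hK₀, hK⟩ := geo e (lam := 1 / M) (θ := 1 / M * (τ * ρ J) ^ 2 / 4)
    (by positivity) hρ0
    (by rw [one_div_mul_eq_div, ← mul_div_assoc, div_le_iff₀ hM0]; linarith) (by positivity)
  have hMβ : 1 / (M : ℝ) * d ≤ β / 2 := by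
    rw [one_div_mul_eq_div, div_le_iff₀ hM0]
    linarith
  refine ⟨K₀, min δ (β / 4), 1 / M, by positivity, by positivity,
    by linarith [min_le_right δ (β / 4)], hK₀, fun K hd'' A' hA' hav R hR => ?_⟩
  have hd' := hd''.trans_le (min_le_left _ _)
  obtain ⟨A, hsub, hA, hae⟩ := hA'.exists_measurable_subset_ae_eq
  rw [← measure_congr hae]
  have hR' := hsub.trans hR
  have hfin : volume A ≠ ⊤ := ((measure_mono hR').trans_lt measure_ball_lt_top).ne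
  obtain ⟨W, hW, hW0, hs⟩ := MG.spectral A hA.nullMeasurableSet hfin
  have htot : ∫ ξ, W ξ = (volume A).toReal := by
    have h := hs 0
    simp only [add_zero, inner_zero_right, mul_zero, Complex.ofReal_zero, zero_mul,
      Complex.exp_zero, mul_one, ofPred_mem_eq, inter_self] at h
    rw [integral_complex_ofReal] at h
    exact (Complex.ofReal_injective h).symm
  obtain ⟨j, hj, hbad⟩ := ph e W hW hW0 hM0 (fun j => τ / (24 * d * ρ j))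
    (fun j => 8 / (τ ^ 2 * ρ j ^ 2)) hsep (Nat.cast_pos.1 hJ0)
  have hle : ρ J ≤ ρ j := hanti hj.le
  have h1 := step e hd A hA hR' W hW hW0 hs (frontier (K.1 : Set E)) (fun v hv => by
      have h5 : A ∩ {x | x + v ∈ A} = ∅ := eq_empty_of_forall_notMem fun x hx =>
        hav _ (hsub hx.2) x (hsub hx.1) (by rwa [add_sub_cancel_left])
      have h6 := hs v
      rw [h5, measure_empty, ENNReal.toReal_zero, Complex.ofReal_zero] at h6
      exact h6.symm) (Nat.cast_pos.1 hM0) (hK K hd') hle (hρ j).1 (hρ j).2 hτ hτ1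
    (by
      have : (τ * ρ J) ^ 2 ≤ (τ * ρ j) ^ 2 := by gcongr
      have := mul_le_mul_of_nonneg_left this (one_div_pos.2 hM0).le
      linarith) hγ hη.le
    (by
      have := mul_le_mul_of_nonneg_left hle (mul_pos hη hM0).le
      linarith)
  rw [hD1, hη1, hγ1, htot] at h1
  rw [htot] at hbad
  have hV : (0 : ℝ) ≤ (volume A).toReal := ENNReal.toReal_nonneg
  have h2 : D * (3 * (2 * d / J)) ≤ κ / 2 := by
    rw [← mul_div_assoc, ← mul_div_assoc, div_le_iff₀ hJ0]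
    linarith
  have h3 := mul_le_mul_of_nonneg_left hbad (by positivity : 0 ≤ D * 3)
  have h4 := mul_le_mul_of_nonneg_right h2 hV
  have h5 := mul_le_mul_of_nonneg_right hτ2 hV
  linarith

theorem main_euclid (n : ℕ) (hn : 2 ≤ n) (hE : Module.finrank ℝ E = n) (ε : ℝ) (hε : 0 < ε) :
    ∃ O : Set (Body E), IsOpen O ∧ ¬ IsMeagre O ∧ ∀ K ∈ O,
      (∀ A : Set E, NullMeasurableSet A volume →
        (∀ x ∈ A, ∀ y ∈ A, x - y ∉ frontier (K.1 : Set E)) →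
        ∀ᶠ R : ℝ in Filter.atTop, (volume (A ∩ ball 0 R)).toReal ≤
          (1 / 2 ^ n + ε) * (volume (ball (0 : E) R)).toReal) ∧
      ∃ A : Set E, MeasurableSet A ∧ (∀ x ∈ A, ∀ y ∈ A, x - y ∉ frontier (K.1 : Set E)) ∧
        ∀ᶠ R : ℝ in Filter.atTop, (1 / 2 ^ n - ε) * (volume (ball (0 : E) R)).toReal ≤
          (volume (A ∩ ball 0 R)).toReal := by
  have hP : (2 : ℝ) ≤ 2 ^ n := le_self_pow₀ one_le_two (by omega)
  obtain ⟨a, ha, ha0, ha1⟩ : ∃ a : ℝ, 1 / 2 ^ n + ε = a ∧ 0 < a ∧ a * 2 ^ n = 1 + ε * 2 ^ n :=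
    ⟨_, rfl, by positivity, by field_simp⟩
  obtain ⟨κ, hκ, hκ1, hκ2⟩ : ∃ κ : ℝ, 0 < κ ∧ κ ≤ 1 ∧ κ * (1 + a) ≤ ε :=
    ⟨min 1 (ε / (1 + a)), by positivity, min_le_left _ _,
      (le_div_iff₀ (by positivity)).1 (min_le_right _ _)⟩
  let e := (stdOrthonormalBasis ℝ E).reindex (finCongr hE)
  obtain ⟨p, hp⟩ := low e hε
  have hq : (0 : ℝ) < 2 * p + 1 := by positivity
  obtain ⟨K₀, δ, lam, hδ, hlam, hβ, hK₀, hK⟩ := main_open e hn κ hκ _ (one_div_pos.2 hq)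
  have := MG.baire_body (E := E)
  refine ⟨ball K₀ δ, isOpen_ball, not_isMeagre_of_isOpen isOpen_ball ⟨K₀, mem_ball_self hδ⟩,
    fun K hK' => ⟨fun A hA hav => ?_, per e p, per_meas e p,
      fun x hx y hy => per_avoid e p hlam hδ ((le_div_iff₀ hq).1 hβ) hK₀ hK' hx hy, hp⟩⟩
  filter_upwards [MG.main_ratio (E := E) (3 * (n : ℝ)) (a * (2 ^ n - κ) / (1 + κ)) (by
    rw [one_lt_div (by positivity)]
    nlinarith)] with R hR
  have h1 := (hK K hK' (A ∩ ball 0 R) (hA.inter measurableSet_ball.nullMeasurableSet)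
    (fun x hx y hy => hav x hx.1 y hy.1) R inter_subset_right).trans
      (mul_le_mul_of_nonneg_left hR (by positivity))
  rw [← mul_assoc, mul_div_cancel₀ _ (by positivity), mul_comm a, mul_assoc] at h1
  rw [ha]
  exact le_of_mul_le_mul_left h1 (by linarith)

end Pool.Agent.Lib.MP_eb34a4_co.Cb
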