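import Pool.Agent.Lib.MP_eb34a4_co.Cb.Win
import Pool.Agent.Lib.MP_eb34a4_co.Cb.Fin

/-! The product bound. -/

set_option autoImplicit false

open MeasureTheory Set
open scoped RealInnerProductSpace

namespace Pool.Agent.Lib.MP_eb34a4_co.Cb

variable {E : Type} [NormedAddCommGroup E] [InnerProductSpace ℝ E] [FiniteDimensional ℝ E]
  [MeasurableSpace E] [BorelSpace E] {d : ℕ}

theorem sm_mem (e : OrthonormalBasis (Fin d) ℝ E) (A : Set E) {s : ℝ} (hs : 0 < s) (x : E) :
    0 ≤ sm e A s x ∧ sm e A s x ≤ 1 := by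
  have := cub_prob (d := d) hs
  refine ⟨integral_nonneg fun q => indicator_nonneg (fun _ _ => zero_le_one) _, ?_⟩
  have h := norm_integral_le_of_norm_le_const (μ := cub d s) (C := 1)
    (f := fun q => A.indicator (fun _ => (1 : ℝ)) (x + vec e q))
    (ae_of_all _ fun q => (norm_indicator_le_norm_self _ _).trans (by simp))
  rw [probReal_univ, mul_one] at h
  exact (le_abs_self _).trans h

/-- Fubini and translation invariance. -/
theorem sm_int (e : OrthonormalBasis (Fin d) ℝ E) (A : Set E) (hA : MeasurableSet A)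
    (hfin : volume A ≠ ⊤) {s : ℝ} (hs : 0 < s) :
    Integrable (sm e A s) ∧ ∫ x, sm e A s x = (volume A).toReal := by
  have := cub_prob (d := d) hs
  have h0 : Integrable (A.indicator fun _ => (1 : ℝ)) :=
    (integrable_indicator_iff hA).2 (integrableOn_const hfin)
  have h1 : ∀ v : E, ∫ x, A.indicator (fun _ => (1 : ℝ)) (x + v) = (volume A).toReal := by
    intro v
    rw [integral_add_right_eq_self (A.indicator fun _ => (1 : ℝ)) v, integral_indicator hA]
    simp [Measure.real]
  have hm : Measurable fun p : E × (Fin d → ℝ) =>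
      A.indicator (fun _ => (1 : ℝ)) (p.1 + vec e p.2) :=
    (measurable_const.indicator hA).comp
      (measurable_fst.add ((vec_cont e).measurable.comp measurable_snd))
  have h2 : Integrable (fun p : E × (Fin d → ℝ) =>
      A.indicator (fun _ => (1 : ℝ)) (p.1 + vec e p.2)) (volume.prod (cub d s)) := by
    rw [integrable_prod_iff' hm.aestronglyMeasurable]
    refine ⟨ae_of_all _ fun q => h0.comp_add_right (vec e q), ?_⟩
    refine (integrable_const (volume A).toReal).congr (ae_of_all _ fun q => ?_)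
    rw [← h1 (vec e q)]
    refine integral_congr_ae (ae_of_all _ fun y => ?_)
    exact (Real.norm_of_nonneg (indicator_nonneg (fun _ _ => zero_le_one) _)).symm
  refine ⟨h2.integral_prod_left, ?_⟩
  unfold sm
  rw [integral_integral_swap h2]
  simp [h1]

/-- `cub_box`; a vector with coordinates in `Icc 0 s` has norm at most `d * s`. -/
theorem sm_supp (e : OrthonormalBasis (Fin d) ℝ E) (A : Set E) {R s : ℝ} (hs : 0 < s)
    (hR : A ⊆ Metric.ball 0 R) (x : E) (hx : R + d * s ≤ ‖x‖) : sm e A s x = 0 := by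
  refine integral_eq_zero_of_ae ((cub_box (d := d) hs).mono fun q hq => ?_)
  refine indicator_of_notMem (fun h => ?_) _
  have h1 := mem_ball_zero_iff.1 (hR h)
  have h2 : ‖vec e q‖ ≤ d * s := by
    refine (norm_sum_le _ _).trans ?_
    refine (Finset.sum_le_card_nsmul _ _ s fun l _ => ?_).trans (by simp)
    rw [norm_smul, e.norm_eq_one, mul_one, Real.norm_of_nonneg (hq l).1]
    exact (hq l).2
  have h3 : ‖x‖ ≤ ‖x + vec e q‖ + ‖vec e q‖ := by
    simpa using norm_sub_le (x + vec e q) (vec e q)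
  linarith

omit [FiniteDimensional ℝ E] [MeasurableSpace E] [BorelSpace E] in
theorem t14_upd (e : OrthonormalBasis (Fin d) ℝ E) (s : ℝ) {M : ℕ} (m : Fin d → Fin M)
    (k : Fin d) (j : Fin M) :
    (vec e fun l => s * (Function.update m k j l : ℕ)) =
      (((j : ℕ) : ℝ) * s) • e k + vec e fun l => if l = k then 0 else s * (m l : ℕ) := by
  simp only [vec]
  rw [← Finset.add_sum_erase _ _ (Finset.mem_univ k),
    ← Finset.add_sum_erase _ _ (Finset.mem_univ k), Function.update_self, if_pos rfl, zero_smul,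
    zero_add, mul_comm]
  congr 1
  refine Finset.sum_congr rfl fun l hl => ?_
  rw [Function.update_of_ne (Finset.ne_of_mem_erase hl), if_neg (Finset.ne_of_mem_erase hl)]

theorem t14_fin {γ η : ℝ} {M : ℕ} (hM : 0 < M) (hγ : 0 < γ) (hη : 0 ≤ η)
    (c : Fin d → (Fin d → Bool) → (Fin d → Bool) → ℕ) (hc : ∀ k i i', (c k i i' : ℝ) ≤ η * M)
    (φ : (Fin d → Bool) → (Fin d → Fin M) → ℝ) (p0 : ∀ i m, 0 ≤ φ i m) (p1 : ∀ i m, φ i m ≤ 1)
    (G : (Fin d → Bool) → Fin d → ℕ → ℝ) (G0 : ∀ i k j, 0 ≤ G i k j)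
    (hG : ∀ i k (j : Fin M), G i k j = (∑ m, φ i (Function.update m k j)) / M ^ d) :
    ∑ i, (∑ m, φ i m) / M ^ d ≤
      1 + 2 ^ d * η + 2 ^ d * (d * γ) + 2 ^ d * ∑ k, ∑ i, ∑ i', if i k = false ∧ i' k = true then
        (∑ j ∈ Finset.range M, G i k (j + c k i i') * G i' k j) / γ ^ 2 / M else 0 := by
  have hM' : (0 : ℝ) < M := Nat.cast_pos.2 hM
  obtain ⟨u, hu⟩ : ∃ u : Fin d → (Fin d → Bool) → (Fin d → Bool) → ℝ, ∀ k i i', u k i i' =
      if i k = false ∧ i' k = true then
        (∑ j ∈ Finset.range M, G i k (j + c k i i') * G i' k j) / γ ^ 2 / M else 0 :=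
    ⟨_, fun _ _ _ => rfl⟩
  simp only [← hu]
  have u0 : ∀ k i i', 0 ≤ u k i i' := by
    intro k i i'
    rw [hu]
    split_ifs
    · exact div_nonneg (div_nonneg (Finset.sum_nonneg fun j _ =>
        mul_nonneg (G0 _ _ _) (G0 _ _ _)) (by positivity)) hM'.le
    · exact le_rfl
  have u1 : ∀ k i, 0 ≤ ∑ i', u k i i' := fun k i => Finset.sum_nonneg fun i' _ => u0 k i i'
  have u2 : ∀ k, 0 ≤ ∑ i, ∑ i', u k i i' := fun k => Finset.sum_nonneg fun i _ => u1 k i
  have u3 : 0 ≤ ∑ k, ∑ i, ∑ i', u k i i' := Finset.sum_nonneg fun k _ => u2 k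
  have u4 : ∀ k i i', u k i i' ≤ ∑ k, ∑ i, ∑ i', u k i i' := fun k i i' =>
    (Finset.single_le_sum (fun j _ => u0 k i j) (Finset.mem_univ i')).trans
      ((Finset.single_le_sum (fun j _ => u1 k j) (Finset.mem_univ i)).trans
        (Finset.single_le_sum (fun j _ => u2 j) (Finset.mem_univ k)))
  generalize ∑ k, ∑ i, ∑ i', u k i i' = T at u3 u4 ⊢
  have h2 := corners (fun i k => (((Finset.range M).filter fun j => γ < G i k j).card : ℝ) / M)
    (fun i k => by positivity) (fun i k => by
      rw [div_le_one hM']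
      exact_mod_cast (Finset.card_filter_le _ _).trans (Finset.card_range M).le)
    (add_nonneg hη u3) (fun k i i' a b => by
      have h3 := pair (G i k) (G i' k) (G0 i k) (G0 i' k) M (c k i i') hγ
      have h4 := u4 k i i'
      rw [hu, if_pos ⟨a, b⟩] at h4
      have h6 : (c k i i' : ℝ) / M ≤ η := (div_le_iff₀ hM').2 (hc k i i')
      have h7 := div_le_div_of_nonneg_right h3 hM'.le
      rw [add_div, add_div, add_div, div_self hM'.ne'] at h7
      linarith)
  refine (Finset.sum_le_sum fun i _ => pl hM (φ i) (p0 i) (p1 i) (G i) (hG i) hγ.le).trans ?_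
  rw [Finset.sum_add_distrib, Finset.sum_const, Finset.card_univ, Fintype.card_fun,
    Fintype.card_bool, Fintype.card_fin, nsmul_eq_mul]
  push_cast
  linarith

/-- `pl` at each corner with `G k j = sl e A s M k (x + cor e i + (j * s) • e k)`, then `pair` and
`corners` with the error `η` plus the whole triple sum. -/
theorem point (e : OrthonormalBasis (Fin d) ℝ E) (A : Set E) {s γ η : ℝ} (hs : 0 < s) {M : ℕ}
    (hM : 0 < M) (hγ : 0 < γ) (hη : 0 ≤ η) (c : Fin d → (Fin d → Bool) → (Fin d → Bool) → ℕ)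
    (hc : ∀ k i i', (c k i i' : ℝ) ≤ η * M) (x : E) :
    ∑ i : Fin d → Bool, (∑ m : Fin d → Fin M,
        sm e A s (x + (cor e i + vec e fun l => s * (m l : ℕ)))) / M ^ d ≤
      1 + 2 ^ d * η + 2 ^ d * (d * γ) + 2 ^ d * ∑ k, ∑ i, ∑ i', if i k = false ∧ i' k = true then
        (∑ j ∈ Finset.range M, sl e A s M k (x + cor e i + (((j + c k i i' : ℕ) : ℝ) * s) • e k) *
          sl e A s M k (x + cor e i' + ((j : ℝ) * s) • e k)) / γ ^ 2 / M else 0 := by
  refine t14_fin hM hγ hη c hc
    (fun i m => sm e A s (x + (cor e i + vec e fun l => s * (m l : ℕ))))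
    (fun i m => (sm_mem e A hs _).1) (fun i m => (sm_mem e A hs _).2)
    (fun i k j => sl e A s M k (x + cor e i + ((j : ℝ) * s) • e k)) (fun i k j => ?_)
    fun i k j => ?_
  · exact div_nonneg (Finset.sum_nonneg fun m _ => (sm_mem e A hs _).1) (by positivity)
  · unfold sl
    congr 1
    refine Finset.sum_congr rfl fun m _ => ?_
    rw [t14_upd, add_assoc, add_assoc]

omit [FiniteDimensional ℝ E] [MeasurableSpace E] [BorelSpace E] in
theorem t15_norm (e : OrthonormalBasis (Fin d) ℝ E) (q : Fin d → ℝ) (hq : ∀ l, |q l| ≤ 1) :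
    ‖vec e q‖ ≤ d := by
  refine (norm_sum_le _ _).trans ?_
  calc ∑ l, ‖q l • e l‖ ≤ ∑ _l : Fin d, (1 : ℝ) := Finset.sum_le_sum fun l _ => by
        rw [norm_smul, e.orthonormal.1 l, mul_one]
        exact hq l
    _ = d := by simp

theorem t15_term (f : E → ℝ) {v p w p' w' : E} {C : ℝ} (hv : p' + w' = p + w + v)
    (h : Integrable (fun x => f x * f (x + v)) ∧ ∫ x, f x * f (x + v) ≤ C) :
    Integrable (fun x => f (x + p + w) * f (x + p' + w')) ∧
      ∫ x, f (x + p + w) * f (x + p' + w') ≤ C := by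
  have e1 : (fun x => f (x + p + w) * f (x + p' + w')) =
      fun x => (fun y => f y * f (y + v)) (x + (p + w)) := funext fun x => by
    rw [add_assoc x p', hv, add_assoc x p]
    simp only [add_assoc]
  rw [e1, integral_add_right_eq_self (fun y => f y * f (y + v))]
  exact ⟨h.1.comp_add_right _, h.2⟩

theorem t15_sum {ι : Type} [Fintype ι] {f : ι → E → ℝ} {C : ℝ}
    (h : ∀ i, Integrable (f i) ∧ ∫ x, f i x ≤ C) :
    Integrable (fun x => ∑ i, f i x) ∧ ∫ x, ∑ i, f i x ≤ Fintype.card ι * C := by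
  refine ⟨integrable_finsetSum _ fun i _ => (h i).1, ?_⟩
  rw [integral_finsetSum _ fun i _ => (h i).1]
  simpa using Finset.sum_le_card_nsmul Finset.univ _ C fun i _ => (h i).2

/-- Integrate `point`; its left side vanishes off the ball (`sm_supp`), so the constant may be
replaced by a multiple of the indicator of the ball; `integral_add_right_eq_self`. -/
theorem phys (e : OrthonormalBasis (Fin d) ℝ E) (A : Set E) (hA : MeasurableSet A) {R : ℝ}
    (hR : A ⊆ Metric.ball 0 R) {s γ η C : ℝ} (hs : 0 < s) {M : ℕ} (hM : 0 < M) (hs1 : M * s ≤ 1)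
    (hγ : 0 < γ) (hη : 0 ≤ η) (hC : 0 ≤ C) (c : Fin d → (Fin d → Bool) → (Fin d → Bool) → ℕ)
    (hc : ∀ k i i', (c k i i' : ℝ) ≤ η * M)
    (h : ∀ k i i', i k = false → i' k = true → ∀ v, v = cor e i' - cor e i - (c k i i' * s) • e k →
      Integrable (fun x => sl e A s M k x * sl e A s M k (x + v)) ∧
        ∫ x, sl e A s M k x * sl e A s M k (x + v) ≤ C) :
    2 ^ d * (volume A).toReal ≤ (1 + 2 ^ d * η + 2 ^ d * (d * γ)) *
      (volume (Metric.ball (0 : E) (R + 3 * d))).toReal + 2 ^ d * (d * 4 ^ d * (C / γ ^ 2)) := by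
  have hM' : (0 : ℝ) < M := by exact_mod_cast hM
  have hM1 : (1 : ℝ) ≤ M := by exact_mod_cast hM
  obtain ⟨i1, i2⟩ := sm_int e A hA ((measure_mono hR).trans_lt measure_ball_lt_top).ne hs
  obtain ⟨T, hT⟩ : ∃ T : Fin d → (Fin d → Bool) → (Fin d → Bool) → E → ℝ, ∀ k i i' x,
      T k i i' x = if i k = false ∧ i' k = true then
        (∑ j ∈ Finset.range M, sl e A s M k (x + cor e i + (((j + c k i i' : ℕ) : ℝ) * s) • e k) *
          sl e A s M k (x + cor e i' + ((j : ℝ) * s) • e k)) / γ ^ 2 / M else 0 :=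
    ⟨_, fun _ _ _ _ => rfl⟩
  have s0 : ∀ k x, 0 ≤ sl e A s M k x := fun k x =>
    div_nonneg (Finset.sum_nonneg fun _ _ => (sm_mem e A hs _).1) (by positivity)
  have T0 : ∀ k i i' x, 0 ≤ T k i i' x := fun k i i' x => by
    rw [hT]
    split_ifs
    · exact div_nonneg (div_nonneg (Finset.sum_nonneg fun _ _ => mul_nonneg (s0 _ _) (s0 _ _))
        (by positivity)) hM'.le
    · exact le_rfl
  have T1 : ∀ k i i', Integrable (T k i i') ∧ ∫ x, T k i i' x ≤ C / γ ^ 2 := fun k i i' => by
    rw [funext (hT k i i')]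
    by_cases hi : i k = false ∧ i' k = true
    · simp only [if_pos hi]
      have h1 := fun j : ℕ => t15_term (sl e A s M k) (p := cor e i) (p' := cor e i')
        (w := (((j + c k i i' : ℕ) : ℝ) * s) • e k) (w' := ((j : ℝ) * s) • e k)
        (by push_cast; module) (h k i i' hi.1 hi.2 _ rfl)
      have h2 := integrable_finsetSum (Finset.range M) fun j _ => (h1 j).1
      refine ⟨(h2.div_const _).div_const _, ?_⟩
      rw [integral_div, integral_div, integral_finsetSum _ fun j _ => (h1 j).1, div_right_comm]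
      refine div_le_div_of_nonneg_right ?_ (by positivity)
      rw [div_le_iff₀' hM']
      simpa using Finset.sum_le_card_nsmul (Finset.range M) _ C fun j _ => (h1 j).2
    · simp only [if_neg hi]
      exact ⟨integrable_zero _ _ _, by rw [integral_zero]; positivity⟩
  obtain ⟨j1, j2⟩ := t15_sum fun k => t15_sum fun i => t15_sum fun i' => T1 k i i'
  have l1 : ∀ i : Fin d → Bool, Integrable fun x => (∑ m : Fin d → Fin M,
      sm e A s (x + (cor e i + vec e fun l => s * (m l : ℕ)))) / M ^ d := fun i =>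
    (integrable_finsetSum _ fun m _ => i1.comp_add_right _).div_const _
  have l2 : ∫ x, ∑ i : Fin d → Bool, (∑ m : Fin d → Fin M,
      sm e A s (x + (cor e i + vec e fun l => s * (m l : ℕ)))) / M ^ d =
      2 ^ d * (volume A).toReal := by
    rw [integral_finsetSum _ fun i _ => l1 i, Finset.sum_congr rfl fun i _ => by
      rw [integral_div, integral_finsetSum _ fun m _ => i1.comp_add_right _,
        Finset.sum_congr rfl fun m _ => (integral_add_right_eq_self _ _).trans i2]]
    simp only [Finset.sum_const, Finset.card_univ, Fintype.card_fun, Fintype.card_fin,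
      Fintype.card_bool, nsmul_eq_mul, Nat.cast_pow, Nat.cast_ofNat]
    field_simp
  have b1 : Integrable ((Metric.ball (0 : E) (R + 3 * d)).indicator
      fun _ => 1 + 2 ^ d * η + 2 ^ d * (d * γ)) :=
    (integrable_indicator_iff measurableSet_ball).2 (integrableOn_const measure_ball_lt_top.ne)
  have key := integral_mono (integrable_finsetSum _ fun i _ => l1 i)
    (b1.add (j1.const_mul (2 ^ d))) fun x => by
      by_cases hx : x ∈ Metric.ball (0 : E) (R + 3 * d)
      · simp only [Pi.add_apply, indicator_of_mem hx, hT]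
        exact point e A hs hM hγ hη c hc x
      · simp only [Pi.add_apply, indicator_of_notMem hx, zero_add]
        refine le_trans (Finset.sum_eq_zero fun i _ => ?_).le (mul_nonneg (by positivity)
          (Finset.sum_nonneg fun _ _ => Finset.sum_nonneg fun _ _ =>
            Finset.sum_nonneg fun _ _ => T0 _ _ _ _))
        rw [Finset.sum_eq_zero fun m _ => sm_supp e A hs hR _ ?_, zero_div]
        have n1 : ‖cor e i‖ ≤ d := t15_norm e _ fun l => by split_ifs <;> simp
        have n2 : ‖vec e fun l => s * (m l : ℕ)‖ ≤ d := t15_norm e _ fun l => by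
          have : ((m l : ℕ) : ℝ) ≤ M := by exact_mod_cast (m l).2.le
          rw [abs_of_nonneg (by positivity)]
          nlinarith
        have n3 := norm_add_le (cor e i) (vec e fun l => s * (m l : ℕ))
        have n4 := norm_sub_le (x + (cor e i + vec e fun l => s * (m l : ℕ)))
          (cor e i + vec e fun l => s * (m l : ℕ))
        have n5 : (d : ℝ) * s ≤ d := mul_le_of_le_one_right d.cast_nonneg (by nlinarith)
        rw [add_sub_cancel_right] at n4
        rw [mem_ball_zero_iff, not_lt] at hx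
        linarith
  rw [l2] at key
  simp only [Pi.add_apply] at key
  rw [integral_add b1 (j1.const_mul _), integral_const_mul,
    integral_indicator_const _ measurableSet_ball, smul_eq_mul, mul_comm (volume.real _)] at key
  refine key.trans (add_le_add le_rfl (mul_le_mul_of_nonneg_left (j2.trans_eq ?_) (by positivity)))
  simp only [Fintype.card_fun, Fintype.card_fin, Fintype.card_bool, Nat.cast_pow, Nat.cast_ofNat]
  rw [show (4 : ℝ) = 2 * 2 by norm_num, mul_pow]
  ring

end Pool.Agent.Lib.MP_eb34a4_co.Cb
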