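import Pool.Agent.Lib.MP_eb34a4_co.Cb.Defs

/-! The window measures. -/

set_option autoImplicit false

open MeasureTheory Set
open scoped RealInnerProductSpace

namespace Pool.Agent.Lib.MP_eb34a4_co.Cb

variable {E : Type} [NormedAddCommGroup E] [InnerProductSpace ℝ E] [FiniteDimensional ℝ E]
  [MeasurableSpace E] [BorelSpace E] {d : ℕ}

theorem t3_prob {s : ℝ} (hs : 0 < s) :
    IsProbabilityMeasure ((ENNReal.ofReal s)⁻¹ • volume.restrict (Icc (0 : ℝ) s)) := by
  refine ⟨?_⟩
  rw [Measure.smul_apply, Measure.restrict_apply_univ, Real.volume_Icc, sub_zero, smul_eq_mul]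
  exact ENNReal.inv_mul_cancel (ENNReal.ofReal_pos.2 hs).ne' ENNReal.ofReal_ne_top

theorem cub_prob {s : ℝ} (hs : 0 < s) : IsProbabilityMeasure (cub d s) := by
  have := t3_prob hs
  unfold cub
  infer_instance

theorem cub_box {s : ℝ} (hs : 0 < s) : ∀ᵐ q ∂cub d s, ∀ l, q l ∈ Icc 0 s := by
  have := t3_prob hs
  unfold cub
  refine ae_all_iff.2 fun l => ?_
  exact Measure.tendsto_eval_ae_ae.eventually
    (Measure.ae_smul_measure (ae_restrict_mem measurableSet_Icc) _)

omit [FiniteDimensional ℝ E] [MeasurableSpace E] [BorelSpace E] in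
theorem t3_sum {ι : Type} (ξ : E) (T : Finset ι) (v : ι → E) :
    ch ξ (∑ i ∈ T, v i) = ∏ i ∈ T, ch ξ (v i) := by
  classical
  induction T using Finset.induction_on with
  | empty => simp [ch_zero]
  | insert a T ha ih => rw [Finset.sum_insert ha, Finset.prod_insert ha, ch_add, ih]

omit [FiniteDimensional ℝ E] [MeasurableSpace E] [BorelSpace E] in
theorem t3_smul (ξ u : E) (t : ℝ) :
    ch ξ (t • u) = Complex.exp (((2 * Real.pi * ⟪ξ, u⟫ : ℝ) : ℂ) * Complex.I * t) := by
  unfold ch
  rw [real_inner_smul_right]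
  congr 1
  push_cast
  ring

omit [FiniteDimensional ℝ E] [MeasurableSpace E] [BorelSpace E] in
theorem t3_one {s : ℝ} (hs : 0 < s) (ξ u : E) :
    s * |2 * Real.pi * ⟪ξ, u⟫| *
      ‖∫ t, ch ξ (t • u) ∂((ENNReal.ofReal s)⁻¹ • volume.restrict (Icc (0 : ℝ) s))‖ ≤
      ‖ch ξ (s • u) - 1‖ := by
  simp only [t3_smul]
  generalize 2 * Real.pi * ⟪ξ, u⟫ = w
  rcases eq_or_ne w 0 with rfl | hw
  · simp
  have hc : (w : ℂ) * Complex.I ≠ 0 :=
    mul_ne_zero (Complex.ofReal_ne_zero.2 hw) Complex.I_ne_zero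
  rw [integral_smul_measure, integral_Icc_eq_integral_Ioc,
    ← intervalIntegral.integral_of_le hs.le, integral_exp_mul_complex hc, norm_smul, norm_div,
    norm_mul, Complex.norm_I, Complex.norm_real, ENNReal.toReal_inv, ENNReal.toReal_ofReal hs.le,
    Real.norm_eq_abs, Real.norm_eq_abs, abs_of_pos (inv_pos.2 hs), Complex.ofReal_zero, mul_zero,
    Complex.exp_zero]
  have := abs_pos.2 hw
  apply le_of_eq
  field_simp

/-- `ch ξ (vec e q)` is a product over the coordinates (`integral_fintype_prod_eq_prod`); each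
factor has norm at most one, the factor `l` is an exponential integral over `Icc 0 s`. -/
theorem cub_dec (e : OrthonormalBasis (Fin d) ℝ E) {s : ℝ} (hs : 0 < s) (ξ : E) (l : Fin d) :
    s * fr e l ξ * ‖∫ q, ch ξ (vec e q) ∂cub d s‖ ≤ ‖ch ξ (s • e l) - 1‖ := by
  classical
  have := t3_prob hs
  refine le_trans ?_ (t3_one hs ξ (e l))
  refine mul_le_mul_of_nonneg_left ?_ (mul_nonneg hs.le (abs_nonneg _))
  simp only [vec, t3_sum, cub]
  rw [integral_fintype_prod_eq_prod (fun j (t : ℝ) => ch ξ (t • e j)), norm_prod,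
    ← Finset.mul_prod_erase _ _ (Finset.mem_univ l)]
  refine mul_le_of_le_one_right (norm_nonneg _)
    (Finset.prod_le_one (fun _ _ => norm_nonneg _) fun j _ => ?_)
  refine (norm_integral_le_of_norm_le_const (C := 1)
    (Filter.Eventually.of_forall fun t => (ch_norm _ _).le)).trans ?_
  simp

omit [FiniteDimensional ℝ E] [MeasurableSpace E] [BorelSpace E] in
theorem t4_sum {ι : Type} (ξ : E) (S : Finset ι) (v : ι → E) :
    ch ξ (∑ l ∈ S, v l) = ∏ l ∈ S, ch ξ (v l) := by
  classical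
  induction S using Finset.induction_on with
  | empty => simp [ch_zero]
  | insert a S ha ih => rw [Finset.sum_insert ha, Finset.prod_insert ha, ch_add, ih]

omit [FiniteDimensional ℝ E] [MeasurableSpace E] [BorelSpace E] in
theorem t4_pow (ξ u : E) (s : ℝ) (n : ℕ) : ch ξ ((s * n) • u) = ch ξ (s • u) ^ n := by
  induction n with
  | zero => simp [ch_zero]
  | succ n ih => rw [Nat.cast_succ, mul_add, mul_one, add_smul, ch_add, ih, pow_succ]

omit [FiniteDimensional ℝ E] [MeasurableSpace E] [BorelSpace E] in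
theorem t4_le {ι : Type} [Fintype ι] (ξ : E) (v : ι → E) :
    ‖∑ i, ch ξ (v i)‖ ≤ Fintype.card ι :=
  (norm_sum_le _ _).trans (by simp [ch_norm])

omit [FiniteDimensional ℝ E] [MeasurableSpace E] [BorelSpace E] in
/-- The sum is a product of geometric sums (`Finset.prod_univ_sum`, `mul_geom_sum`). -/
theorem grid_dec (e : OrthonormalBasis (Fin d) ℝ E) (s : ℝ) (M : ℕ) (ξ : E) {k l : Fin d}
    (h : l ≠ k) :
    M * ‖ch ξ (s • e l) - 1‖ * ‖∑ m : Fin d → Fin M,
      ch ξ (vec e fun j => if j = k then 0 else s * (m j : ℕ))‖ ≤ 2 * M ^ d := by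
  classical
  have h1 := Finset.prod_univ_sum (fun _ : Fin d => (Finset.univ : Finset (Fin M)))
    fun j t => ch ξ ((if j = k then 0 else s * (t : ℕ)) • e j)
  rw [Fintype.piFinset_univ] at h1
  simp only [vec, t4_sum]
  rw [← h1, norm_prod, ← Finset.mul_prod_erase _ _ (Finset.mem_univ l)]
  have h2 : ‖ch ξ (s • e l) - 1‖ *
      ‖∑ t : Fin M, ch ξ ((if l = k then 0 else s * (t : ℕ)) • e l)‖ ≤ 2 := by
    simp only [if_neg h, t4_pow]
    rw [Fin.sum_univ_eq_sum_range (fun t => ch ξ (s • e l) ^ t), ← norm_mul, mul_geom_sum]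
    refine (norm_sub_le _ _).trans ?_
    rw [norm_pow, ch_norm, one_pow, norm_one, one_add_one_eq_two]
  have h3 : ∏ j ∈ Finset.univ.erase l,
      ‖∑ t : Fin M, ch ξ ((if j = k then 0 else s * (t : ℕ)) • e j)‖ ≤
        ∏ _j ∈ Finset.univ.erase l, (M : ℝ) :=
    Finset.prod_le_prod (fun _ _ => norm_nonneg _) fun j _ =>
      (t4_le ξ _).trans (by rw [Fintype.card_fin])
  have h4 : (M : ℝ) * ∏ _j ∈ Finset.univ.erase l, (M : ℝ) = M ^ d := by
    rw [Finset.mul_prod_erase _ (fun _ => (M : ℝ)) (Finset.mem_univ l), Finset.prod_const,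
      Finset.card_univ, Fintype.card_fin]
  rw [← h4, mul_assoc, ← mul_assoc ‖_‖, mul_left_comm 2]
  exact mul_le_mul_of_nonneg_left (mul_le_mul h2 h3
    (Finset.prod_nonneg fun _ _ => norm_nonneg _) zero_le_two) (Nat.cast_nonneg M)

omit [FiniteDimensional ℝ E] in
theorem t4_int {F : Type} [NormedAddCommGroup F] [NormedSpace ℝ F] {ι : Type} [Fintype ι]
    (e : OrthonormalBasis (Fin d) ℝ E) {s : ℝ} (hs : 0 < s) (g : ι → E) (c : ENNReal) {f : E → F}
    (hf : StronglyMeasurable f) (hb : ∀ x, ‖f x‖ ≤ 1) :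
    ∫ q, f q ∂(c • ∑ m, (cub d s).map fun q => g m + vec e q) =
      c.toReal • ∑ m, ∫ q, f (g m + vec e q) ∂cub d s := by
  have := cub_prob (d := d) hs
  have hm : ∀ m, Measurable fun q => g m + vec e q := fun m =>
    (continuous_const.add (vec_cont e)).measurable
  rw [integral_smul_measure, integral_finsetSum_measure fun m _ =>
    Integrable.of_bound hf.aestronglyMeasurable 1 (ae_of_all _ hb)]
  congr 1
  exact Finset.sum_congr rfl fun m _ => integral_map (hm m).aemeasurable hf.aestronglyMeasurable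

/-- Take for `μ` the mean over `m` of the images of `cub d s` under
`q ↦ (grid point of m) + vec e q`; `cub_dec`, `grid_dec`, `ch_add`, `inner_vec`. -/
theorem win (e : OrthonormalBasis (Fin d) ℝ E) {s : ℝ} (hs : 0 < s) {M : ℕ} (hM : 0 < M)
    (k : Fin d) : ∃ μ : Measure E, Win e s (M * s) k μ ∧ ∀ A : Set E, MeasurableSet A → ∀ x,
      sl e A s M k x = ∫ q, A.indicator (fun _ => (1 : ℝ)) (x + q) ∂μ := by
  have := cub_prob (d := d) hs
  obtain ⟨g, hg⟩ : ∃ g : (Fin d → Fin M) → E,
      g = fun m => vec e fun j => if j = k then 0 else s * (m j : ℕ) := ⟨_, rfl⟩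
  have hm : ∀ m, Measurable fun q => g m + vec e q := fun m =>
    (continuous_const.add (vec_cont e)).measurable
  have hM' : (0 : ℝ) < (M : ℝ) ^ d := by positivity
  have hc : (((M : ENNReal) ^ d)⁻¹).toReal = ((M : ℝ) ^ d)⁻¹ := by simp
  refine ⟨((M : ENNReal) ^ d)⁻¹ • ∑ m, (cub d s).map fun q => g m + vec e q,
    ⟨⟨?_⟩, ?_, fun ξ l => ?_⟩, fun A hA x => ?_⟩
  · rw [Measure.smul_apply, Measure.finsetSum_apply,
      Finset.sum_congr rfl fun m _ => Measure.map_apply (hm m) MeasurableSet.univ]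
    simp only [preimage_univ, measure_univ, Finset.sum_const, Finset.card_univ, Fintype.card_fun,
      Fintype.card_fin, nsmul_eq_mul, mul_one, smul_eq_mul, Nat.cast_pow]
    exact ENNReal.inv_mul_cancel (pow_ne_zero _ (by exact_mod_cast hM.ne')) (by simp)
  · refine Measure.ae_smul_measure (ae_finsetSum_measure_iff.2 fun m _ => ?_) _
    refine (ae_map_iff (hm m).aemeasurable ?_).2 ((cub_box hs).mono fun q hq l => ?_)
    · rw [ofPred_forall]
      exact MeasurableSet.iInter fun l => measurableSet_Icc.preimage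
        (continuous_id.inner continuous_const).measurable
    · rw [hg, inner_add_left, inner_vec, inner_vec]
      have h1 := hq l
      split_ifs
      · simpa using h1
      · have h2 : ((m l : ℕ) : ℝ) + 1 ≤ M := by exact_mod_cast (m l).2
        have h3 : (0 : ℝ) ≤ (m l : ℕ) := Nat.cast_nonneg _
        exact ⟨by nlinarith [h1.1], by nlinarith [h1.2]⟩
  · rw [t4_int e hs g _ (f := ch ξ)
      (ch_cont.comp (Continuous.prodMk_right ξ)).stronglyMeasurable fun x => (ch_norm ξ x).le]
    simp only [ch_add, integral_const_mul]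
    rw [← Finset.sum_mul, norm_smul, norm_mul, hc, Real.norm_of_nonneg (inv_nonneg.2 hM'.le)]
    have h1 := cub_dec e hs ξ l
    have h2 : ‖ch ξ (s • e l) - 1‖ ≤ 2 := (norm_sub_le _ _).trans (by
      rw [ch_norm, norm_one, one_add_one_eq_two])
    have h3 := norm_nonneg (∑ m, ch ξ (g m))
    rw [mul_left_comm, inv_mul_le_iff₀ hM', mul_left_comm]
    split_ifs with h
    · refine mul_le_mul ((t4_le ξ g).trans (by simp)) (h1.trans h2) ?_ hM'.le
      exact mul_nonneg (mul_nonneg hs.le (abs_nonneg _)) (norm_nonneg _)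
    · have h4 := grid_dec e s M ξ h
      rw [show (fun m : Fin d → Fin M => ch ξ (vec e fun j => if j = k then 0 else
        s * (m j : ℕ))) = fun m => ch ξ (g m) by rw [hg]] at h4
      have h5 := mul_le_mul_of_nonneg_left h1 (mul_nonneg h3 (Nat.cast_nonneg M))
      nlinarith
  · rw [t4_int e hs g _ (f := fun q => A.indicator (fun _ => (1 : ℝ)) (x + q))
      ((stronglyMeasurable_const.indicator hA).comp_measurable (measurable_const_add x))
      fun y => (norm_indicator_le_norm_self (fun _ => (1 : ℝ)) (x + y)).trans norm_one.le,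
      hc, smul_eq_mul, sl, div_eq_inv_mul, hg]
    simp only [sm, add_assoc]

end Pool.Agent.Lib.MP_eb34a4_co.Cb
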